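import Pool.Agent.R228.PD.Good

/-!
# A vertex of the triangle is good
-/

set_option autoImplicit false

namespace Pool.Agent.R228.PD

open Matrix AG

section Idx

variable {κ : Type} [Fintype κ] [DecidableEq κ]

omit [DecidableEq κ] in
theorem idx2_smul {M : Matrix κ κ ℝ} {c : ℝ} (hc : 0 < c) (h : Idx2 M) : Idx2 (c • M) := by
  obtain ⟨u, v, h1, h2⟩ := h
  refine ⟨u, v, ?_, ?_⟩
  · rw [bl_smul_mat]
    exact mul_neg_of_pos_of_neg hc h1
  · rw [bl_smul_mat, bl_smul_mat, bl_smul_mat]
    have h3 : c ^ 2 * bl M u v ^ 2 < c ^ 2 * (bl M u u * bl M v v) :=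
      mul_lt_mul_of_pos_left h2 (by positivity)
    calc (c * bl M u v) ^ 2 = c ^ 2 * bl M u v ^ 2 := by ring
      _ < c ^ 2 * (bl M u u * bl M v v) := h3
      _ = c * bl M u u * (c * bl M v v) := by ring

omit [DecidableEq κ] in
theorem not_idx2_smul {M : Matrix κ κ ℝ} {c : ℝ} (hc : 0 < c) (h : ¬ Idx2 M) : ¬ Idx2 (c • M) := by
  intro h2
  apply h
  have := idx2_smul (inv_pos.2 hc) h2
  rwa [smul_smul, inv_mul_cancel₀ hc.ne', one_smul] at this

/-- The homogeneous form of `pattern`. -/
theorem pattern_hom {M N : Matrix κ κ ℝ} (hM : M.IsSymm) (hN : N.IsSymm) {x y s t s' t' : ℝ}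
    (hx : 0 < x) (hy : 0 < y) (hs : 0 < s) (ht : 0 ≤ t) (hs' : 0 ≤ s') (ht' : 0 < t')
    (h1 : t * x < s * y) (h2 : y * s' < x * t') (i0 : ¬ Idx2 M) (i1 : Idx2 (s • M + t • N))
    (i2 : ¬ Idx2 (x • M + y • N)) (i3 : Idx2 (s' • M + t' • N)) (i4 : ¬ Idx2 N) : False := by
  have key : ∀ a b : ℝ, 0 < a + b →
      M + (b / (a + b)) • (N - M) = (a + b)⁻¹ • (a • M + b • N) := by
    intro a b hab
    have e1 : (a + b)⁻¹ * a = 1 - b / (a + b) := by
      field_simp
      ring
    rw [smul_add, smul_smul, smul_smul, e1, inv_mul_eq_div, smul_sub, sub_smul, one_smul]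
    abel
  have hst : 0 < s + t := by linarith
  have hxy : 0 < x + y := by linarith
  have hst' : 0 < s' + t' := by linarith
  refine pattern (A := M) (B := N - M) hM (hN.sub hM) (t₁ := t / (s + t)) (t₂ := y / (x + y))
    (t₃ := t' / (s' + t')) (div_nonneg ht hst.le) ?_ ?_ ?_ i0 ?_ ?_ ?_ ?_
  · rw [div_lt_div_iff₀ hst hxy]
    linarith
  · rw [div_lt_div_iff₀ hxy hst']
    linarith
  · rw [div_le_one hst']
    linarith
  · rw [key s t hst]
    exact idx2_smul (inv_pos.2 hst) i1
  · rw [key x y hxy]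
    exact not_idx2_smul (inv_pos.2 hxy) i2
  · rw [key s' t' hst']
    exact idx2_smul (inv_pos.2 hst') i3
  · rwa [add_sub_cancel]

end Idx

variable {ι : Type} [Fintype ι] [DecidableEq ι]

/-- The three indices. -/
structure Tri (i j k : Fin 3) : Prop where
  ij : i ≠ j
  ik : i ≠ k
  jk : j ≠ k

theorem Tri.cases {i j k : Fin 3} (h : Tri i j k) (l : Fin 3) : l = i ∨ l = j ∨ l = k := by
  obtain ⟨h1, h2, h3⟩ := h
  revert h1 h2 h3
  revert i j k l
  decide

theorem Tri.ext {i j k : Fin 3} (h : Tri i j k) {v w : Fin 3 → ℝ} (hi : v i = w i)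
    (hj : v j = w j) (hk : v k = w k) : v = w := by
  funext l
  rcases h.cases l with rfl | rfl | rfl
  · exact hi
  · exact hj
  · exact hk

/-- The core lemma. -/
theorem core (q : QuadSystem ι 3) {i j k : Fin 3} (T : Tri i j k) {p a b c : Fin 3 → ℝ}
    (hp : ∀ l, 0 < p l) (hQ : ∀ z, 0 ≤ bl (q.Qagg (-p)) z z)
    (ha : q.Good a) (hb : q.Good b) (hc : q.Good c)
    (haj : a j = 0) (hai : 0 < a i) (hak : 0 < a k)
    (hbi : b i = 0) (hbj : 0 < b j) (hbk : 0 < b k)
    (hck : c k = 0) (hci : 0 < c i) (hcj : 0 < c j)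
    {α β γ : ℝ} (hα : 0 < α) (hβ : 0 < β) (hγ : 0 < γ)
    (hcomb : p + β • b = α • a + γ • c) : ∃ l, q.Good (Pi.single l 1) := by
  by_contra hcon
  push Not at hcon
  have ei := congrFun hcomb i
  have ej := congrFun hcomb j
  have ek := congrFun hcomb k
  simp only [Pi.add_apply, Pi.smul_apply, smul_eq_mul, hbi, haj, hck, mul_zero, add_zero,
    zero_add] at ei ej ek
  have hpi := hp i
  have hpj := hp j
  have hpk := hp k
  -- the transversal vectors
  set as : Fin 3 → ℝ := (p i / a i) • a + (-p) with has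
  set cs : Fin 3 → ℝ := (p i / c i) • c + (-p) with hcs
  set x := α * a i / p i with hx
  set y := γ * c i / p i with hy
  have hx0 : 0 < x := by positivity
  have hy0 : 0 < y := by positivity
  have hxy : x + y = 1 := by
    rw [hx, hy]
    field_simp
    linarith
  have as_i : as i = 0 := by
    rw [has]
    simp only [Pi.add_apply, Pi.smul_apply, smul_eq_mul, Pi.neg_apply]
    field_simp
    ring
  have as_j : as j = -p j := by
    rw [has]
    simp [haj]
  have cs_i : cs i = 0 := by
    rw [hcs]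
    simp only [Pi.add_apply, Pi.smul_apply, smul_eq_mul, Pi.neg_apply]
    field_simp
    ring
  have cs_k : cs k = -p k := by
    rw [hcs]
    simp [hck]
  have hcomb2 : β • b = x • as + y • cs := by
    have e1 : x • as = α • a - x • p := by
      rw [has, smul_add, smul_smul, hx, smul_neg, ← sub_eq_add_neg]
      congr 2
      field_simp
    have e2 : y • cs = γ • c - y • p := by
      rw [hcs, smul_add, smul_smul, hy, smul_neg, ← sub_eq_add_neg]
      congr 2
      field_simp
    have e3 : β • b = α • a + γ • c - p := by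
      rw [← hcomb]
      abel
    have e4 : p = x • p + y • p := by rw [← add_smul, hxy, one_smul]
    rw [e1, e2, e3]
    conv_lhs => rw [e4]
    abel
  set A := as k with hA
  set C := cs j with hC
  have bk : β * b k = x * A - y * p k := by
    have := congrFun hcomb2 k
    simp only [Pi.add_apply, Pi.smul_apply, smul_eq_mul, cs_k] at this
    rw [this, hA]
    ring
  have bj : β * b j = y * C - x * p j := by
    have := congrFun hcomb2 j
    simp only [Pi.add_apply, Pi.smul_apply, smul_eq_mul, as_j] at this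
    rw [this, hC]
    ring
  have hxA : y * p k < x * A := by
    have := mul_pos hβ hbk
    linarith
  have hyC : x * p j < y * C := by
    have := mul_pos hβ hbj
    linarith
  have hA0 : 0 < A := by
    have h1 := mul_pos hy0 hpk
    have h2 : 0 < x * A := by linarith
    exact (mul_pos_iff_of_pos_left hx0).1 h2
  have hC0 : 0 < C := by
    have h1 := mul_pos hx0 hpj
    have h2 : 0 < y * C := by linarith
    exact (mul_pos_iff_of_pos_left hy0).1 h2
  set Δ := C * A - p j * p k with hΔ
  have hΔ0 : 0 < Δ := by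
    have h1 : (x * p j) * (y * p k) < (y * C) * (x * A) :=
      mul_lt_mul'' hyC hxA (by positivity) (by positivity)
    have h2 : 0 < (x * y) * Δ := by
      rw [hΔ]
      nlinarith
    exact (mul_pos_iff_of_pos_left (mul_pos hx0 hy0)).1 h2
  have hek : (Pi.single k 1 : Fin 3 → ℝ) = (C / Δ) • as + (p j / Δ) • cs := by
    refine T.ext ?_ ?_ ?_
    · simp [as_i, cs_i, T.ik]
    · simp only [Pi.add_apply, Pi.smul_apply, smul_eq_mul, as_j, ← hC]
      rw [Pi.single_eq_of_ne T.jk]
      ring
    · simp only [Pi.add_apply, Pi.smul_apply, smul_eq_mul, cs_k, ← hA]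
      rw [Pi.single_eq_same]
      field_simp
      rw [hΔ]
      ring
  have hej : (Pi.single j 1 : Fin 3 → ℝ) = (p k / Δ) • as + (A / Δ) • cs := by
    refine T.ext ?_ ?_ ?_
    · simp [as_i, cs_i, T.ij]
    · simp only [Pi.add_apply, Pi.smul_apply, smul_eq_mul, as_j, ← hC]
      rw [Pi.single_eq_same]
      field_simp
      rw [hΔ]
      ring
    · simp only [Pi.add_apply, Pi.smul_apply, smul_eq_mul, cs_k, ← hA]
      rw [Pi.single_eq_of_ne T.jk.symm]
      ring
  have hb' : b = (x / β) • as + (y / β) • cs := by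
    have : b = β⁻¹ • (β • b) := by rw [smul_smul, inv_mul_cancel₀ hβ.ne', one_smul]
    rw [this, hcomb2, smul_add, smul_smul, smul_smul, inv_mul_eq_div, inv_mul_eq_div]
  -- forms with two negative squares
  have hsingle0 : ∀ l : Fin 3, ∀ i', 0 ≤ (Pi.single l (1 : ℝ) : Fin 3 → ℝ) i' := by
    intro l i'
    by_cases h : i' = l
    · rw [h, Pi.single_eq_same]
      exact zero_le_one
    · rw [Pi.single_eq_of_ne h]
  have hsingle1 : ∀ l : Fin 3, (Pi.single l (1 : ℝ) : Fin 3 → ℝ) ≠ 0 := by
    intro l h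
    have := congrFun h l
    rw [Pi.single_eq_same] at this
    exact one_ne_zero this
  obtain ⟨τ, hτ0, hτ1, hIk⟩ := exists_idx2 q hb (hsingle0 k) (hsingle1 k) (hcon k)
  obtain ⟨σ, hσ0, hσ1, hIj⟩ := exists_idx2 q hb (hsingle0 j) (hsingle1 j) (hcon j)
  have ga := ((good_iff q a).1 ha).2.2.1
  have gb := ((good_iff q b).1 hb).2.2.1
  have gc := ((good_iff q c).1 hc).2.2.1
  have nas : ¬ Idx2 (q.Qagg as) := by
    rw [has, Qagg_add, Qagg_smul]
    have := not_idx2_add (Qagg_symm q a) (Qagg_symm q (-p)) hQ ga (s := p i / a i) (r := 1)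
      (by positivity) zero_le_one
    rwa [one_smul] at this
  have ncs : ¬ Idx2 (q.Qagg cs) := by
    rw [hcs, Qagg_add, Qagg_smul]
    have := not_idx2_add (Qagg_symm q c) (Qagg_symm q (-p)) hQ gc (s := p i / c i) (r := 1)
      (by positivity) zero_le_one
    rwa [one_smul] at this
  have nb : ¬ Idx2 ((x / β) • q.Qagg as + (y / β) • q.Qagg cs) := by
    rw [← Qagg_smul, ← Qagg_smul, ← Qagg_add, ← hb']
    exact gb
  have e1 : (1 - τ) • (Pi.single k 1 : Fin 3 → ℝ) + τ • b =
      ((1 - τ) * (C / Δ) + τ * (x / β)) • as + ((1 - τ) * (p j / Δ) + τ * (y / β)) • cs := by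
    rw [hek]
    conv_lhs => rw [hb']
    module
  have e2 : (1 - σ) • (Pi.single j 1 : Fin 3 → ℝ) + σ • b =
      ((1 - σ) * (p k / Δ) + σ * (x / β)) • as + ((1 - σ) * (A / Δ) + σ * (y / β)) • cs := by
    rw [hej]
    conv_lhs => rw [hb']
    module
  rw [e1, Qagg_add, Qagg_smul, Qagg_smul] at hIk
  rw [e2, Qagg_add, Qagg_smul, Qagg_smul] at hIj
  have hτ2 : 0 < 1 - τ := by linarith
  have hσ2 : 0 < 1 - σ := by linarith
  refine pattern_hom (Qagg_symm q as) (Qagg_symm q cs) (x := x / β) (y := y / β) (by positivity)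
    (by positivity) ?_ ?_ ?_ ?_ ?_ ?_ nas hIk nb hIj ncs
  · positivity
  · positivity
  · positivity
  · positivity
  · have h3 : 0 < ((1 - τ) / (Δ * β)) * (y * C - x * p j) :=
      mul_pos (by positivity) (by linarith)
    have e : ((1 - τ) * (C / Δ) + τ * (x / β)) * (y / β) -
        ((1 - τ) * (p j / Δ) + τ * (y / β)) * (x / β) =
        ((1 - τ) / (Δ * β)) * (y * C - x * p j) := by
      field_simp
      ring
    linarith
  · have h3 : 0 < ((1 - σ) / (Δ * β)) * (x * A - y * p k) :=
      mul_pos (by positivity) (by linarith)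
    have e : (x / β) * ((1 - σ) * (A / Δ) + σ * (y / β)) -
        (y / β) * ((1 - σ) * (p k / Δ) + σ * (x / β)) =
        ((1 - σ) / (Δ * β)) * (x * A - y * p k) := by
      field_simp
      ring
    linarith

end Pool.Agent.R228.PD
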