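import Pool.Agent.R228.PD.Vertex

/-!
# Five good aggregations suffice
-/

set_option autoImplicit false

namespace Pool.Agent.R228.PD

open Matrix AG

variable {ι : Type} [Fintype ι] [DecidableEq ι]

/-- Pushing a good aggregation to the boundary of the orthant. -/
theorem push_face (q : QuadSystem ι 3) (hι : 3 ≤ Fintype.card ι) {p lam : Fin 3 → ℝ}
    (hP : ∀ z, z ≠ 0 → 0 < bl (q.Qagg p) z z) (hneg : ∃ i, p i < 0) (h : q.Good lam) :
    ∃ μ, q.Good μ ∧ (∃ i, p i < 0 ∧ μ i = 0) ∧ ∀ x, x ∈ q.Sagg μ → x ∈ q.Sagg lam := by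
  have hP' : ∀ z, 0 ≤ bl (q.Qagg p) z z := by
    intro z
    by_cases h : z = 0
    · rw [h]
      unfold bl
      simp
    · exact (hP z h).le
  obtain ⟨g0, gne, gidx, gneg⟩ := (good_iff q lam).1 h
  obtain ⟨i₁, hi₁⟩ := hneg
  obtain ⟨i₀, hi₀, hmin⟩ := Finset.exists_min_image (Finset.univ.filter fun i => p i < 0)
    (fun i => lam i / (-p i)) ⟨i₁, by simp [hi₁]⟩
  simp only [Finset.mem_filter, Finset.mem_univ, true_and] at hi₀ hmin
  set s := lam i₀ / (-p i₀) with hs
  have hs0 : 0 ≤ s := div_nonneg (g0 i₀) (by linarith)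
  have hnn : ∀ i, 0 ≤ (lam + s • p) i := by
    intro i
    simp only [Pi.add_apply, Pi.smul_apply, smul_eq_mul]
    rcases lt_or_ge (p i) 0 with hi | hi
    · have h1 := hmin i hi
      rw [le_div_iff₀ (by linarith)] at h1
      linarith
    · have := mul_nonneg hs0 hi
      linarith [g0 i]
  have hzero : (lam + s • p) i₀ = 0 := by
    simp only [Pi.add_apply, Pi.smul_apply, smul_eq_mul]
    have h1 : -p i₀ ≠ 0 := by linarith
    have h2 : s * (-p i₀) = lam i₀ := div_mul_cancel₀ _ h1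
    linarith
  have hne : lam + s • p ≠ 0 := by
    intro h0
    obtain ⟨l, hl⟩ := idx1_of_not (Qagg_symm q lam) gidx
    obtain ⟨z, hz0, hz1, -, -⟩ := exists_common (κ := ι ⊕ Unit) (by
      rw [Fintype.card_sum, Fintype.card_unit]
      omega) l l l
    have h1 := hl z hz1
    have h2 : lam = (-s) • p := by
      rw [neg_smul]
      exact eq_neg_of_add_eq_zero_left h0
    have hspos : 0 < s := by
      rcases hs0.eq_or_lt with h3 | h3
      · exfalso
        apply gne
        rw [h2, ← h3]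
        simp
      · exact h3
    rw [h2, Qagg_smul, bl_smul_mat] at h1
    have h3 := mul_pos hspos (hP z hz0)
    linarith
  refine ⟨lam + s • p, good_push q h hP' hs0 hnn hne, ⟨i₀, hi₀, hzero⟩, fun x hx => ?_⟩
  have h1 : ∑ i, (lam + s • p) i * q.f i x < 0 := hx
  rw [← bl_Qagg_hz, Qagg_comb, bl_add_mat, bl_smul_mat] at h1
  have h2 := mul_nonneg hs0 (hP' (hz x))
  show ∑ i, lam i * q.f i x < 0
  rw [← bl_Qagg_hz]
  linarith

omit [DecidableEq ι] in
/-- Nonnegative combinations. -/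
theorem mem_of_comb (q : QuadSystem ι 3) {lam u w : Fin 3 → ℝ} {s t : ℝ} (hs : 0 ≤ s) (ht : 0 ≤ t)
    (hne : lam ≠ 0) (h : lam = s • u + t • w) {x : ι → ℝ} (hu : x ∈ q.Sagg u)
    (hw : x ∈ q.Sagg w) : x ∈ q.Sagg lam := by
  have h1 : ∑ i, u i * q.f i x < 0 := hu
  have h2 : ∑ i, w i * q.f i x < 0 := hw
  show ∑ i, lam i * q.f i x < 0
  rw [← bl_Qagg_hz] at h1 h2 ⊢
  rw [h, Qagg_add, Qagg_smul, Qagg_smul, bl_add_mat, bl_smul_mat, bl_smul_mat]
  rcases hs.eq_or_lt with h3 | h3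
  · rcases ht.eq_or_lt with h4 | h4
    · exfalso
      apply hne
      rw [h, ← h3, ← h4]
      simp
    · rw [← h3]
      have := mul_neg_of_pos_of_neg h4 h2
      linarith
  · have h5 := mul_neg_of_pos_of_neg h3 h1
    have h6 := mul_nonpos_of_nonneg_of_nonpos ht h2.le
    linarith

/-- A vector between two others in a face is a nonnegative combination of them. -/
theorem cone_two {i j k : Fin 3} (T : Tri i j k) {u w lam : Fin 3 → ℝ} (hu : ∀ l, 0 ≤ u l)
    (hw : ∀ l, 0 ≤ w l) (hl : ∀ l, 0 ≤ lam l) (hu0 : u ≠ 0) (hw0 : w ≠ 0) (hl0 : lam ≠ 0)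
    (hui : u i = 0) (hwi : w i = 0) (hli : lam i = 0)
    (h1 : lam j * u k ≤ u j * lam k) (h2 : w j * lam k ≤ lam j * w k) :
    ∃ s t : ℝ, 0 ≤ s ∧ 0 ≤ t ∧ lam = s • u + t • w := by
  have hpos : ∀ v : Fin 3 → ℝ, (∀ l, 0 ≤ v l) → v ≠ 0 → v i = 0 → 0 < v j + v k := by
    intro v hv hv0 hvi
    by_contra hcon
    have hj := hv j
    have hk := hv k
    apply hv0
    refine T.ext hvi ?_ ?_
    · simp only [Pi.zero_apply]
      linarith
    · simp only [Pi.zero_apply]
      linarith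
  have pu := hpos u hu hu0 hui
  have pw := hpos w hw hw0 hwi
  have pl := hpos lam hl hl0 hli
  set D := u j * w k - u k * w j with hD
  set P := lam j * w k - lam k * w j with hPd
  set R := u j * lam k - u k * lam j with hR
  have hP0 : 0 ≤ P := by linarith
  have hR0 : 0 ≤ R := by linarith
  have ej : lam j * D = P * u j + R * w j := by
    rw [hD, hPd, hR]
    ring
  have ek : lam k * D = P * u k + R * w k := by
    rw [hD, hPd, hR]
    ring
  have esum : (lam j + lam k) * D = P * (u j + u k) + R * (w j + w k) := by linarith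
  have hD0 : 0 ≤ D := by
    have g1 := mul_nonneg hP0 pu.le
    have g2 := mul_nonneg hR0 pw.le
    by_contra hcon
    push Not at hcon
    have := mul_neg_of_pos_of_neg pl hcon
    linarith
  rcases hD0.eq_or_lt with h | h
  · -- all three are proportional
    have hP1 : P = 0 := by
      have g1 := mul_nonneg hP0 pu.le
      have g2 := mul_nonneg hR0 pw.le
      rw [← h, mul_zero] at esum
      have : P * (u j + u k) = 0 := by linarith
      exact (mul_eq_zero.1 this).resolve_right pu.ne'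
    refine ⟨0, (lam j + lam k) / (w j + w k), le_rfl, by positivity, ?_⟩
    refine T.ext ?_ ?_ ?_
    · simp [hui, hwi, hli]
    · simp only [Pi.add_apply, Pi.smul_apply, smul_eq_mul, zero_mul, zero_add]
      field_simp
      rw [hPd] at hP1
      linarith
    · simp only [Pi.add_apply, Pi.smul_apply, smul_eq_mul, zero_mul, zero_add]
      field_simp
      rw [hPd] at hP1
      linarith
  · refine ⟨P / D, R / D, by positivity, by positivity, ?_⟩
    refine T.ext ?_ ?_ ?_
    · simp [hui, hwi, hli]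
    · simp only [Pi.add_apply, Pi.smul_apply, smul_eq_mul]
      field_simp
      linarith
    · simp only [Pi.add_apply, Pi.smul_apply, smul_eq_mul]
      field_simp
      linarith

/-- An extreme vector of a finite family in a face. -/
theorem exists_extreme {i j k : Fin 3} (T : Tri i j k) (F : Finset (Fin 3 → ℝ)) (hF : F.Nonempty)
    (h0 : ∀ v ∈ F, ∀ l, 0 ≤ v l) (hne : ∀ v ∈ F, v ≠ 0) (hi : ∀ v ∈ F, v i = 0) :
    ∃ w ∈ F, ∀ v ∈ F, w j * v k ≤ v j * w k := by
  obtain ⟨w, hw, hmin⟩ := Finset.exists_min_image F (fun v => v j / (v j + v k)) hF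
  have hpos : ∀ v ∈ F, 0 < v j + v k := by
    intro v hv
    by_contra hcon
    have hj := h0 v hv j
    have hk := h0 v hv k
    apply hne v hv
    refine T.ext (hi v hv) ?_ ?_
    · simp only [Pi.zero_apply]
      linarith
    · simp only [Pi.zero_apply]
      linarith
  refine ⟨w, hw, fun v hv => ?_⟩
  have h1 := hmin v hv
  rw [div_le_div_iff₀ (hpos w hw) (hpos v hv)] at h1
  linarith

/-- Two vectors suffice for a face. -/
theorem face_two (q : QuadSystem ι 3) {i j k : Fin 3} (T : Tri i j k) (F : Finset (Fin 3 → ℝ))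
    (hg : ∀ v ∈ F, q.Good v) (hi : ∀ v ∈ F, v i = 0) :
    ∃ U ⊆ F, U.card ≤ 2 ∧ ∀ x, (∀ u ∈ U, x ∈ q.Sagg u) → ∀ v ∈ F, x ∈ q.Sagg v := by
  rcases F.eq_empty_or_nonempty with h | h
  · exact ⟨∅, by simp, by simp, by simp [h]⟩
  have h0 : ∀ v ∈ F, ∀ l, 0 ≤ v l := fun v hv => (hg v hv).1
  have hne : ∀ v ∈ F, v ≠ 0 := fun v hv => (hg v hv).2.1
  obtain ⟨w, hw, hw'⟩ := exists_extreme T F h h0 hne hi
  obtain ⟨u, hu, hu'⟩ := exists_extreme (i := i) (j := k) (k := j) ⟨T.ik, T.ij, T.jk.symm⟩ F h h0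
    hne hi
  refine ⟨{u, w}, ?_, Finset.card_le_two, fun x hx v hv => ?_⟩
  · intro v hv
    rw [Finset.mem_insert, Finset.mem_singleton] at hv
    rcases hv with rfl | rfl
    · exact hu
    · exact hw
  · obtain ⟨s, t, hs, ht, hst⟩ := cone_two T (h0 u hu) (h0 w hw) (h0 v hv) (hne u hu) (hne w hw)
      (hne v hv) (hi u hu) (hi w hw) (hi v hv) (by linarith [hu' v hv]) (hw' v hv)
    exact mem_of_comb q hs ht (hne v hv) hst (hx u (by simp)) (hx w (by simp))

/-- A vertex and one more vector suffice for a face. -/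
theorem face_one (q : QuadSystem ι 3) {i j k : Fin 3} (T : Tri i j k) (F : Finset (Fin 3 → ℝ))
    (hg : ∀ v ∈ F, q.Good v) (hi : ∀ v ∈ F, v i = 0) :
    ∃ U ⊆ F, U.card ≤ 1 ∧ ∀ x, x ∈ q.Sagg (Pi.single j 1) → (∀ u ∈ U, x ∈ q.Sagg u) →
      ∀ v ∈ F, x ∈ q.Sagg v := by
  rcases F.eq_empty_or_nonempty with h | h
  · exact ⟨∅, by simp, by simp, by simp [h]⟩
  have h0 : ∀ v ∈ F, ∀ l, 0 ≤ v l := fun v hv => (hg v hv).1
  have hne : ∀ v ∈ F, v ≠ 0 := fun v hv => (hg v hv).2.1
  obtain ⟨w, hw, hw'⟩ := exists_extreme T F h h0 hne hi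
  have s0 : ∀ i', 0 ≤ (Pi.single j (1 : ℝ) : Fin 3 → ℝ) i' := by
    intro i'
    by_cases h : i' = j
    · rw [h, Pi.single_eq_same]
      exact zero_le_one
    · rw [Pi.single_eq_of_ne h]
  have s1 : (Pi.single j (1 : ℝ) : Fin 3 → ℝ) ≠ 0 := by
    intro h
    have := congrFun h j
    rw [Pi.single_eq_same] at this
    exact one_ne_zero this
  refine ⟨{w}, by simpa using hw, by simp, fun x hxj hx v hv => ?_⟩
  obtain ⟨s, t, hs, ht, hst⟩ := cone_two T s0 (h0 w hw) (h0 v hv) s1 (hne w hw)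
    (hne v hv) (Pi.single_eq_of_ne T.ij _) (hi w hw) (hi v hv) (by
      rw [Pi.single_eq_same, Pi.single_eq_of_ne T.jk.symm]
      have := h0 v hv k
      linarith) (hw' v hv)
  exact mem_of_comb q hs ht (hne v hv) hst hxj (hx w (by simp))

/-- The counting argument. -/
theorem count (q : QuadSystem ι 3) (hι : 3 ≤ Fintype.card ι) {p : Fin 3 → ℝ}
    (hP : ∀ z, z ≠ 0 → 0 < bl (q.Qagg p) z z) (F : Finset (Fin 3 → ℝ)) (hF : F.Nonempty)
    (hg : ∀ v ∈ F, q.Good v) (hface : ∀ v ∈ F, ∃ i, p i < 0 ∧ v i = 0) :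
    ∃ U : Finset (Fin 3 → ℝ), U.Nonempty ∧ U.card ≤ 5 ∧ (∀ u ∈ U, q.Good u) ∧
      ∀ x, (∀ u ∈ U, x ∈ q.Sagg u) → ∀ v ∈ F, x ∈ q.Sagg v := by
  -- it is enough to find a possibly empty family
  suffices h : ∃ U : Finset (Fin 3 → ℝ), U.card ≤ 5 ∧ (∀ u ∈ U, q.Good u) ∧
      ∀ x, (∀ u ∈ U, x ∈ q.Sagg u) → ∀ v ∈ F, x ∈ q.Sagg v by
    obtain ⟨U, h1, h2, h3⟩ := h
    rcases U.eq_empty_or_nonempty with h | h
    · obtain ⟨v₀, hv₀⟩ := hF
      refine ⟨{v₀}, by simp, by simp, by simpa using hg v₀ hv₀, fun x _ => h3 x (by simp [h])⟩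
    · exact ⟨U, h, h1, h2, h3⟩
  classical
  have hfilt : ∀ l, (∀ v ∈ F.filter (fun v => v l = 0), q.Good v) ∧
      ∀ v ∈ F.filter (fun v => v l = 0), v l = 0 := by
    intro l
    constructor
    · intro v hv
      exact hg v (Finset.mem_filter.1 hv).1
    · intro v hv
      exact (Finset.mem_filter.1 hv).2
  by_cases hcase : ∃ i j k, Tri i j k ∧ ∀ v ∈ F, v j = 0 ∨ v k = 0
  · obtain ⟨i, j, k, T, hjk⟩ := hcase
    obtain ⟨U, hU, hU2, hU3⟩ := face_two q (i := j) (j := i) (k := k) ⟨T.ij.symm, T.jk, T.ik⟩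
      (F.filter fun v => v j = 0) (hfilt j).1 (hfilt j).2
    obtain ⟨V, hV, hV2, hV3⟩ := face_two q (i := k) (j := i) (k := j)
      ⟨T.ik.symm, T.jk.symm, T.ij⟩ (F.filter fun v => v k = 0) (hfilt k).1 (hfilt k).2
    refine ⟨U ∪ V, ?_, ?_, ?_⟩
    · have := Finset.card_union_le U V
      omega
    · intro u hu
      rcases Finset.mem_union.1 hu with h | h
      · exact (hfilt j).1 u (hU h)
      · exact (hfilt k).1 u (hV h)
    · intro x hx v hv
      rcases hjk v hv with h | h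
      · exact hU3 x (fun u hu => hx u (Finset.mem_union_left _ hu)) v
          (Finset.mem_filter.2 ⟨hv, h⟩)
      · exact hV3 x (fun u hu => hx u (Finset.mem_union_right _ hu)) v
          (Finset.mem_filter.2 ⟨hv, h⟩)
  · push Not at hcase
    -- a vector in each open face
    have hvec : ∀ i j k, Tri i j k → ∃ v ∈ F, v i = 0 ∧ 0 < v j ∧ 0 < v k ∧ p i < 0 := by
      intro i j k T
      obtain ⟨v, hv, hvj, hvk⟩ := hcase i j k T
      obtain ⟨l, hl1, hl2⟩ := hface v hv
      have h0 := (hg v hv).1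
      rcases T.cases l with rfl | rfl | rfl
      · exact ⟨v, hv, hl2, lt_of_le_of_ne (h0 j) (Ne.symm hvj), lt_of_le_of_ne (h0 k) (Ne.symm hvk),
          hl1⟩
      · exact absurd hl2 hvj
      · exact absurd hl2 hvk
    have T0 : Tri 0 1 2 := ⟨by decide, by decide, by decide⟩
    obtain ⟨b, hbF, hb0, hb1, hb2, hp0⟩ := hvec 0 1 2 T0
    obtain ⟨a, haF, ha1, ha0, ha2, hp1⟩ := hvec 1 0 2 ⟨by decide, by decide, by decide⟩
    obtain ⟨c, hcF, hc2, hc0, hc1, hp2⟩ := hvec 2 0 1 ⟨by decide, by decide, by decide⟩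
    obtain ⟨l, hl⟩ := vertex_good q hι T0 (p := -p) (a := a) (b := b) (c := c) (by
      intro l
      rcases T0.cases l with rfl | rfl | rfl
      · simpa using hp0
      · simpa using hp1
      · simpa using hp2) (by rwa [neg_neg]) (hg a haF) (hg b hbF) (hg c hcF) ha1 ha0 ha2 hb0 hb1
      hb2 hc2 hc0 hc1
    -- the other two indices
    obtain ⟨j, k, T⟩ : ∃ j k, Tri l j k := by
      rcases T0.cases l with rfl | rfl | rfl
      · exact ⟨1, 2, by decide, by decide, by decide⟩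
      · exact ⟨0, 2, by decide, by decide, by decide⟩
      · exact ⟨0, 1, by decide, by decide, by decide⟩
    obtain ⟨U, hU, hU2, hU3⟩ := face_one q (i := j) (j := l) (k := k) ⟨T.ij.symm, T.jk, T.ik⟩
      (F.filter fun v => v j = 0) (hfilt j).1 (hfilt j).2
    obtain ⟨V, hV, hV2, hV3⟩ := face_one q (i := k) (j := l) (k := j)
      ⟨T.ik.symm, T.jk.symm, T.ij⟩ (F.filter fun v => v k = 0) (hfilt k).1 (hfilt k).2
    obtain ⟨W, hW, hW2, hW3⟩ := face_two q (i := l) (j := j) (k := k) T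
      (F.filter fun v => v l = 0) (hfilt l).1 (hfilt l).2
    refine ⟨{Pi.single l 1} ∪ (U ∪ (V ∪ W)), ?_, ?_, ?_⟩
    · have h1 := Finset.card_union_le {(Pi.single l 1 : Fin 3 → ℝ)} (U ∪ (V ∪ W))
      have h2 := Finset.card_union_le U (V ∪ W)
      have h3 := Finset.card_union_le V W
      rw [Finset.card_singleton] at h1
      omega
    · intro u hu
      simp only [Finset.mem_union, Finset.mem_singleton] at hu
      rcases hu with h | h | h | h
      · rw [h]
        exact hl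
      · exact (hfilt j).1 u (hU h)
      · exact (hfilt k).1 u (hV h)
      · exact (hfilt l).1 u (hW h)
    · intro x hx v hv
      have hxl : x ∈ q.Sagg (Pi.single l 1) := hx _ (by simp)
      have hxU : ∀ u ∈ U, x ∈ q.Sagg u := fun u hu => hx u (by simp [hu])
      have hxV : ∀ u ∈ V, x ∈ q.Sagg u := fun u hu => hx u (by simp [hu])
      have hxW : ∀ u ∈ W, x ∈ q.Sagg u := fun u hu => hx u (by simp [hu])
      obtain ⟨i, -, hvi⟩ := hface v hv
      rcases T.cases i with rfl | rfl | rfl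
      · exact hW3 x hxW v (Finset.mem_filter.2 ⟨hv, hvi⟩)
      · exact hU3 x hxl hxU v (Finset.mem_filter.2 ⟨hv, hvi⟩)
      · exact hV3 x hxl hxV v (Finset.mem_filter.2 ⟨hv, hvi⟩)

/-- Five good aggregations suffice. -/
theorem five (q : QuadSystem ι 3) (hι : 3 ≤ Fintype.card ι) (hPD : ∃ θ : Fin 3 → ℝ,
    (q.Qagg θ).PosDef) (hfin : q.FinitelyDescribed) :
    ∃ (r : ℕ) (L : Fin r → Fin 3 → ℝ), 1 ≤ r ∧ r ≤ 5 ∧ (∀ j, q.Good (L j)) ∧
      convexHull ℝ q.S = ⋂ j, q.Sagg (L j) := by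
  classical
  -- from finite sets to families
  suffices h : ∃ U : Finset (Fin 3 → ℝ), U.Nonempty ∧ U.card ≤ 5 ∧ (∀ u ∈ U, q.Good u) ∧
      ∀ x, (∀ u ∈ U, x ∈ q.Sagg u) → x ∈ convexHull ℝ q.S by
    obtain ⟨U, h1, h2, h3, h4⟩ := h
    refine ⟨U.card, fun j => (U.equivFin.symm j : Fin 3 → ℝ), h1.card_pos, h2,
      fun j => h3 _ (U.equivFin.symm j).2, ?_⟩
    apply Set.Subset.antisymm
    · exact Set.subset_iInter fun j => (h3 _ (U.equivFin.symm j).2).2.2.2
    · intro x hx
      apply h4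
      intro u hu
      have := Set.mem_iInter.1 hx (U.equivFin ⟨u, hu⟩)
      simpa using this
  obtain ⟨p, hp⟩ := hPD
  have hP : ∀ z, z ≠ 0 → 0 < bl (q.Qagg p) z z := by
    intro z hz
    have := hp.dotProduct_mulVec_pos hz
    simpa [bl] using this
  have hP' : ∀ z, 0 ≤ bl (q.Qagg p) z z := by
    intro z
    by_cases h : z = 0
    · rw [h]
      unfold bl
      simp
    · exact (hP z h).le
  obtain ⟨r, L, hr, hL, hconv⟩ := hfin
  by_cases hneg : ∃ i, p i < 0
  · -- push every aggregation to the boundary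
    choose μ hμ1 hμ2 hμ3 using fun j => push_face q hι hP hneg (hL j)
    obtain ⟨U, hU1, hU2, hU3, hU4⟩ := count q hι hP (Finset.univ.image μ)
      ⟨μ ⟨0, hr⟩, Finset.mem_image_of_mem _ (Finset.mem_univ _)⟩ (by
        intro v hv
        obtain ⟨j, -, rfl⟩ := Finset.mem_image.1 hv
        exact hμ1 j) (by
        intro v hv
        obtain ⟨j, -, rfl⟩ := Finset.mem_image.1 hv
        exact hμ2 j)
    refine ⟨U, hU1, hU2, hU3, fun x hx => ?_⟩
    rw [hconv]
    refine Set.mem_iInter.2 fun j => hμ3 j x ?_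
    exact hU4 x hx (μ j) (Finset.mem_image_of_mem _ (Finset.mem_univ _))
  · -- the positive definite combination is itself good
    push Not at hneg
    have hpne : p ≠ 0 := by
      rintro rfl
      have h1 : (fun _ : ι ⊕ Unit => (1 : ℝ)) ≠ 0 := by
        intro h
        have := congrFun h (Sum.inr ())
        exact one_ne_zero this
      have h2 := hP _ h1
      rw [bl_Qagg] at h2
      simp at h2
    have hempty : ∀ x, x ∉ q.S := by
      intro x hx
      have h1 := neg_of_mem q hneg hpne hx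
      rw [← bl_Qagg_hz] at h1
      exact absurd h1 (not_lt.2 (hP' _))
    have hgood : q.Good p := by
      rw [good_iff]
      refine ⟨hneg, hpne, ?_, fun x hx => absurd hx (hempty x)⟩
      rintro ⟨u, v, h1, -⟩
      exact absurd h1 (not_lt.2 (hP' u))
    refine ⟨{p}, by simp, by simp, by simpa using hgood, fun x hx => ?_⟩
    exfalso
    have h1 : ∑ i, p i * q.f i x < 0 := hx p (by simp)
    rw [← bl_Qagg_hz] at h1
    exact absurd h1 (not_lt.2 (hP' _))

end Pool.Agent.R228.PD
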