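import Pool.Agent.R228.PD.Index

/-!
# A characterization of the good aggregations
-/

set_option autoImplicit false

namespace Pool.Agent.R228.PD

open Matrix AG

variable {ι : Type} [Fintype ι] [DecidableEq ι] {m : ℕ}

/-- The homogeneous point `(x, 1)`. -/
def hz (x : ι → ℝ) : ι ⊕ Unit → ℝ := Sum.elim x fun _ => 1

omit [Fintype ι] [DecidableEq ι] in
theorem hz_comb {x y : ι → ℝ} {a b : ℝ} (hab : a + b = 1) :
    hz (a • x + b • y) = a • hz x + b • hz y := by
  funext j
  rcases j with j | j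
  · simp [hz]
  · simp [hz, hab]

omit [DecidableEq ι] in
theorem Q_symm (q : QuadSystem ι m) (i : Fin m) : (q.Q i).IsSymm := by
  unfold Matrix.IsSymm QuadSystem.Q
  rw [Matrix.fromBlocks_transpose, (q.symm i).eq]
  congr 1

omit [DecidableEq ι] in
theorem Qagg_symm (q : QuadSystem ι m) (lam : Fin m → ℝ) : (q.Qagg lam).IsSymm := by
  unfold QuadSystem.Qagg Matrix.IsSymm
  rw [Matrix.transpose_sum]
  refine Finset.sum_congr rfl fun i _ => ?_
  rw [Matrix.transpose_smul, (Q_symm q i).eq]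

omit [DecidableEq ι] in
theorem bl_Q (q : QuadSystem ι m) (i : Fin m) (x : ι → ℝ) : bl (q.Q i) (hz x) (hz x) = q.f i x := by
  unfold bl QuadSystem.Q QuadSystem.f
  rw [Matrix.fromBlocks_mulVec]
  rw [dotProduct, Fintype.sum_sum_type]
  simp only [hz, Sum.elim_inl, Sum.elim_inr, Pi.add_apply, Fintype.univ_unit,
    Finset.sum_singleton, one_mul]
  have h1 : (Sum.elim x fun _ : Unit => (1 : ℝ)) ∘ Sum.inl = x := by
    funext j
    rfl
  have h2 : (Sum.elim x fun _ : Unit => (1 : ℝ)) ∘ Sum.inr = fun _ => 1 := by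
    funext j
    rfl
  rw [h1, h2]
  have h3 : ∀ j, ((Matrix.of fun (j : ι) (_ : Unit) => q.b i j) *ᵥ fun _ => (1 : ℝ)) j = q.b i j := by
    intro j
    simp [Matrix.mulVec, dotProduct]
  have h4 : ((Matrix.of fun (_ : Unit) (j : ι) => q.b i j) *ᵥ x) () = q.b i ⬝ᵥ x := by
    simp [Matrix.mulVec, dotProduct]
  have h5 : ((Matrix.of fun (_ _ : Unit) => q.c i) *ᵥ fun _ => (1 : ℝ)) () = q.c i := by
    simp [Matrix.mulVec, dotProduct]
  rw [h4, h5]
  simp only [h3, mul_add, Finset.sum_add_distrib]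
  have h6 : ∑ j, x j * q.b i j = q.b i ⬝ᵥ x := by
    rw [dotProduct]
    exact Finset.sum_congr rfl fun j _ => mul_comm _ _
  rw [h6]
  unfold dotProduct
  ring

omit [DecidableEq ι] in
theorem bl_Qagg (q : QuadSystem ι m) (lam : Fin m → ℝ) (u v : ι ⊕ Unit → ℝ) :
    bl (q.Qagg lam) u v = ∑ i, lam i * bl (q.Q i) u v := by
  unfold bl QuadSystem.Qagg
  rw [Matrix.sum_mulVec, dotProduct_sum]
  refine Finset.sum_congr rfl fun i _ => ?_
  rw [smul_mulVec, dotProduct_smul, smul_eq_mul]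

omit [DecidableEq ι] in
theorem bl_Qagg_hz (q : QuadSystem ι m) (lam : Fin m → ℝ) (x : ι → ℝ) :
    bl (q.Qagg lam) (hz x) (hz x) = ∑ i, lam i * q.f i x := by
  rw [bl_Qagg]
  exact Finset.sum_congr rfl fun i _ => by rw [bl_Q]

omit [DecidableEq ι] in
theorem Qagg_add (q : QuadSystem ι m) (lam μ : Fin m → ℝ) :
    q.Qagg (lam + μ) = q.Qagg lam + q.Qagg μ := by
  unfold QuadSystem.Qagg
  simp only [Pi.add_apply, add_smul, Finset.sum_add_distrib]

omit [DecidableEq ι] in
theorem Qagg_smul (q : QuadSystem ι m) (c : ℝ) (lam : Fin m → ℝ) :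
    q.Qagg (c • lam) = c • q.Qagg lam := by
  unfold QuadSystem.Qagg
  simp only [Pi.smul_apply, smul_eq_mul, mul_smul, Finset.smul_sum]

omit [DecidableEq ι] in
theorem Qagg_comb (q : QuadSystem ι m) (t : ℝ) (lam μ : Fin m → ℝ) :
    q.Qagg (lam + t • μ) = q.Qagg lam + t • q.Qagg μ := by
  rw [Qagg_add, Qagg_smul]

omit [DecidableEq ι] in
/-- On `S` nonnegative nonzero combinations are negative. -/
theorem neg_of_mem (q : QuadSystem ι m) {lam : Fin m → ℝ} (h0 : ∀ i, 0 ≤ lam i) (hne : lam ≠ 0)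
    {x : ι → ℝ} (hx : x ∈ q.S) : ∑ i, lam i * q.f i x < 0 := by
  obtain ⟨i, hi⟩ := Function.ne_iff.1 hne
  have hi0 : 0 < lam i := lt_of_le_of_ne (h0 i) (Ne.symm hi)
  refine Finset.sum_neg' (fun j _ => mul_nonpos_of_nonneg_of_nonpos (h0 j) (hx j).le)
    ⟨i, Finset.mem_univ i, mul_neg_of_pos_of_neg hi0 (hx i)⟩

theorem good_iff (q : QuadSystem ι m) (lam : Fin m → ℝ) : q.Good lam ↔
    (∀ i, 0 ≤ lam i) ∧ lam ≠ 0 ∧ ¬ Idx2 (q.Qagg lam) ∧
      ∀ x ∈ q.S, ∀ y ∈ q.S, bl (q.Qagg lam) (hz x) (hz y) < 0 := by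
  have hsym := Qagg_symm q lam
  constructor
  · rintro ⟨h0, hne, hone, hsub⟩
    have hidx := (atMostOne_iff.1 hone).2
    refine ⟨h0, hne, hidx, fun x hx y hy => ?_⟩
    by_contra hcon
    push Not at hcon
    have hxx : bl (q.Qagg lam) (hz x) (hz x) < 0 := by
      rw [bl_Qagg_hz]
      exact neg_of_mem q h0 hne hx
    have hyy : bl (q.Qagg lam) (hz y) (hz y) < 0 := by
      rw [bl_Qagg_hz]
      exact neg_of_mem q h0 hne hy
    -- the segment
    have hseg : ∀ a b : ℝ, 0 ≤ a → 0 ≤ b → a + b = 1 →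
        bl (q.Qagg lam) (a • hz x + b • hz y) (a • hz x + b • hz y) < 0 := by
      intro a b ha hb hab
      rw [← hz_comb hab, bl_Qagg_hz]
      exact hsub (convex_convexHull ℝ q.S (subset_convexHull ℝ _ hx) (subset_convexHull ℝ _ hy)
        ha hb hab)
    apply hidx
    refine ⟨hz x, hz y, hxx, ?_⟩
    set A := bl (q.Qagg lam) (hz x) (hz x)
    set B := bl (q.Qagg lam) (hz x) (hz y)
    set C := bl (q.Qagg lam) (hz y) (hz y)
    -- the critical weights
    have hB : 0 ≤ B := hcon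
    have hs : 0 < B - A + (B - C) := by linarith
    have h1 := hseg ((B - C) / (B - A + (B - C))) ((B - A) / (B - A + (B - C)))
      (div_nonneg (by linarith) hs.le) (div_nonneg (by linarith) hs.le) (by field_simp; ring)
    rw [bl_comb hsym] at h1
    have e : ((B - C) / (B - A + (B - C))) ^ 2 * A +
        2 * ((B - C) / (B - A + (B - C))) * ((B - A) / (B - A + (B - C))) * B +
        ((B - A) / (B - A + (B - C))) ^ 2 * C = (B ^ 2 - A * C) / (B - A + (B - C)) := by
      field_simp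
      ring
    have h2 : (B ^ 2 - A * C) / (B - A + (B - C)) < 0 := by
      rw [← e]
      exact h1
    rw [div_neg_iff] at h2
    rcases h2 with h2 | h2
    · linarith [h2.2]
    · linarith [h2.1]
  · rintro ⟨h0, hne, hidx, hneg⟩
    refine ⟨h0, hne, atMostOne_iff.2 ⟨hsym, hidx⟩, fun w hw => ?_⟩
    -- convexity of the half spaces
    have hconv : ∀ u : ι ⊕ Unit → ℝ, Convex ℝ {x : ι → ℝ | bl (q.Qagg lam) u (hz x) < 0} := by
      intro u x hx y hy a b ha hb hab
      show bl (q.Qagg lam) u (hz (a • x + b • y)) < 0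
      rw [hz_comb hab, bl_add_right, bl_smul_right, bl_smul_right]
      have h1 : bl (q.Qagg lam) u (hz x) < 0 := hx
      have h2 : bl (q.Qagg lam) u (hz y) < 0 := hy
      rcases ha.eq_or_lt with h | h
      · have hb1 : b = 1 := by linarith
        rw [← h, hb1]
        linarith
      · have h3 := mul_neg_of_pos_of_neg h h1
        have h4 := mul_nonpos_of_nonneg_of_nonpos hb h2.le
        linarith
    have step1 : ∀ x ∈ q.S, ∀ y ∈ convexHull ℝ q.S, bl (q.Qagg lam) (hz x) (hz y) < 0 :=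
      fun x hx y hy => convexHull_min (fun z hz' => hneg x hx z hz') (hconv (hz x)) hy
    have step2 : bl (q.Qagg lam) (hz w) (hz w) < 0 :=
      convexHull_min (fun x hx => by
        show bl (q.Qagg lam) (hz w) (hz x) < 0
        rw [bl_comm hsym]
        exact step1 x hx w hw) (hconv (hz w)) hw
    show ∑ i, lam i * q.f i w < 0
    rw [← bl_Qagg_hz]
    exact step2

omit [DecidableEq ι] in
/-- Along a path of forms with at most one negative square the sign of the mixed term is kept. -/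
theorem path {M N : Matrix (ι ⊕ Unit) (ι ⊕ Unit) ℝ} {u v : ι ⊕ Unit → ℝ}
    (hidx : ∀ t : ℝ, 0 ≤ t → t ≤ 1 → ¬ Idx2 (M + t • N)) (u0 : bl M u u < 0) (v0 : bl M v v < 0)
    (u1 : bl (M + N) u u < 0) (v1 : bl (M + N) v v < 0) (h0 : bl M u v < 0) :
    bl (M + N) u v < 0 := by
  by_contra hcon
  push Not at hcon
  rw [bl_add_mat] at u1 v1 hcon
  have hN : 0 < bl N u v := by linarith
  set t := -(bl M u v) / bl N u v with ht
  have ht0 : 0 ≤ t := div_nonneg (by linarith) hN.le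
  have ht1 : t ≤ 1 := by
    rw [ht, div_le_one hN]
    linarith
  apply hidx t ht0 ht1
  have e1 : bl (M + t • N) u v = 0 := by
    rw [bl_add_mat, bl_smul_mat, ht]
    field_simp
    ring
  have e2 : bl (M + t • N) u u < 0 := by
    rw [bl_add_mat, bl_smul_mat]
    have : bl M u u + t * bl N u u = (1 - t) * bl M u u + t * (bl M u u + bl N u u) := by ring
    rw [this]
    rcases ht0.eq_or_lt with h | h
    · rw [← h]
      linarith
    · have h3 := mul_neg_of_pos_of_neg h u1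
      have h4 := mul_nonpos_of_nonneg_of_nonpos (sub_nonneg.2 ht1) u0.le
      linarith
  have e3 : bl (M + t • N) v v < 0 := by
    rw [bl_add_mat, bl_smul_mat]
    have : bl M v v + t * bl N v v = (1 - t) * bl M v v + t * (bl M v v + bl N v v) := by ring
    rw [this]
    rcases ht0.eq_or_lt with h | h
    · rw [← h]
      linarith
    · have h3 := mul_neg_of_pos_of_neg h v1
      have h4 := mul_nonpos_of_nonneg_of_nonpos (sub_nonneg.2 ht1) v0.le
      linarith
  exact ⟨u, v, e2, by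
    rw [e1]
    have := mul_pos_of_neg_of_neg e2 e3
    nlinarith⟩

/-- Scaling. -/
theorem good_smul (q : QuadSystem ι m) {lam : Fin m → ℝ} (h : q.Good lam) {c : ℝ} (hc : 0 < c) :
    q.Good (c • lam) := by
  rw [good_iff] at h ⊢
  obtain ⟨h0, hne, hidx, hneg⟩ := h
  refine ⟨fun i => mul_nonneg hc.le (h0 i), smul_ne_zero hc.ne' hne, ?_, fun x hx y hy => ?_⟩
  · rintro ⟨u, v, h1, h2⟩
    apply hidx
    rw [Qagg_smul, bl_smul_mat] at h1
    rw [Qagg_smul, bl_smul_mat, bl_smul_mat, bl_smul_mat] at h2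
    refine ⟨u, v, ?_, ?_⟩
    · by_contra hcon
      push Not at hcon
      have := mul_nonneg hc.le hcon
      linarith
    · have h3 : c ^ 2 * bl (q.Qagg lam) u v ^ 2 <
          c ^ 2 * (bl (q.Qagg lam) u u * bl (q.Qagg lam) v v) := by nlinarith
      exact lt_of_mul_lt_mul_left h3 (by positivity)
  · rw [Qagg_smul, bl_smul_mat]
    exact mul_neg_of_pos_of_neg hc (hneg x hx y hy)

/-- Adding a positive definite form keeps the number of negative squares at most one. -/
theorem not_idx2_add {κ : Type} [Fintype κ] [DecidableEq κ] {M P : Matrix κ κ ℝ} (hM : M.IsSymm)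
    (hP : P.IsSymm) (hPpos : ∀ z, 0 ≤ bl P z z) (h : ¬ Idx2 M) {s r : ℝ} (hs : 0 ≤ s)
    (hr : 0 ≤ r) : ¬ Idx2 (s • M + r • P) := by
  obtain ⟨l, hl⟩ := idx1_of_not hM h
  intro hI
  refine not_both ((hM.smul s).add (hP.smul r)) ⟨l, fun z hz => ?_⟩ hI
  rw [bl_add_mat, bl_smul_mat, bl_smul_mat]
  exact add_nonneg (mul_nonneg hs (hl z hz)) (mul_nonneg hr (hPpos z))

/-- Pushing a good aggregation in a positive definite direction. -/
theorem good_push (q : QuadSystem ι m) {lam p : Fin m → ℝ} (h : q.Good lam)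
    (hp : ∀ z, 0 ≤ bl (q.Qagg p) z z) {s : ℝ} (hs : 0 ≤ s) (h0 : ∀ i, 0 ≤ (lam + s • p) i)
    (hne : lam + s • p ≠ 0) : q.Good (lam + s • p) := by
  have hg := (good_iff q lam).1 h
  obtain ⟨g0, gne, gidx, gneg⟩ := hg
  rw [good_iff]
  have hidx : ∀ r : ℝ, 0 ≤ r → ¬ Idx2 (q.Qagg lam + r • q.Qagg p) := by
    intro r hr
    have := not_idx2_add (Qagg_symm q lam) (Qagg_symm q p) hp gidx zero_le_one hr
    rwa [one_smul] at this
  refine ⟨h0, hne, by rw [Qagg_comb]; exact hidx s hs, fun x hx y hy => ?_⟩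
  have hneg1 : ∀ w ∈ q.S, bl (q.Qagg (lam + s • p)) (hz w) (hz w) < 0 := fun w hw => by
    rw [bl_Qagg_hz]
    exact neg_of_mem q h0 hne hw
  rw [Qagg_comb] at hneg1 ⊢
  refine path (M := q.Qagg lam) (N := s • q.Qagg p) (fun t ht _ => ?_) (gneg x hx x hx)
    (gneg y hy y hy) (hneg1 x hx) (hneg1 y hy) (gneg x hx y hy)
  rw [smul_smul]
  exact hidx (t * s) (mul_nonneg ht hs)

/-- A vector that is not good has a form with two negative squares on the way to a good vector. -/
theorem exists_idx2 (q : QuadSystem ι m) {b e : Fin m → ℝ} (hb : q.Good b) (he0 : ∀ i, 0 ≤ e i)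
    (hene : e ≠ 0) (he : ¬ q.Good e) : ∃ t : ℝ, 0 ≤ t ∧ t < 1 ∧
      Idx2 (q.Qagg ((1 - t) • e + t • b)) := by
  by_contra hcon
  push Not at hcon
  apply he
  obtain ⟨b0, bne, bidx, bneg⟩ := (good_iff q b).1 hb
  have hall : ∀ t : ℝ, 0 ≤ t → t ≤ 1 → ¬ Idx2 (q.Qagg b + t • (q.Qagg e - q.Qagg b)) := by
    intro t ht0 ht1
    have e1 : q.Qagg b + t • (q.Qagg e - q.Qagg b) = q.Qagg ((1 - (1 - t)) • e + (1 - t) • b) := by
      rw [Qagg_add, Qagg_smul, Qagg_smul, smul_sub, sub_sub_cancel, sub_smul, one_smul]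
      abel
    rw [e1]
    rcases ht0.eq_or_lt with h | h
    · rw [← h, sub_zero, sub_self, zero_smul, zero_add, one_smul]
      exact bidx
    · exact hcon (1 - t) (by linarith) (by linarith)
  have hadd : q.Qagg b + (q.Qagg e - q.Qagg b) = q.Qagg e := by abel
  rw [good_iff]
  refine ⟨he0, hene, ?_, fun x hx y hy => ?_⟩
  · have := hall 1 zero_le_one le_rfl
    rwa [one_smul, hadd] at this
  · have hneg1 : ∀ w ∈ q.S, bl (q.Qagg b + (q.Qagg e - q.Qagg b)) (hz w) (hz w) < 0 := fun w hw => by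
      rw [hadd, bl_Qagg_hz]
      exact neg_of_mem q he0 hene hw
    have := path (M := q.Qagg b) (N := q.Qagg e - q.Qagg b) hall (bneg x hx x hx)
      (bneg y hy y hy) (hneg1 x hx) (hneg1 y hy) (bneg x hx y hy)
    rwa [hadd] at this

end Pool.Agent.R228.PD
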