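import Pool.Agent.R228.AG.Defs

/-!
# Quadratic forms with at most one negative square
-/

set_option autoImplicit false

namespace Pool.Agent.R228.PD

open Matrix Filter Topology

variable {κ : Type} [Fintype κ] [DecidableEq κ]

/-- The bilinear form of a matrix. -/
def bl (M : Matrix κ κ ℝ) (u v : κ → ℝ) : ℝ := u ⬝ᵥ M *ᵥ v

omit [DecidableEq κ] in
theorem bl_add_left (M : Matrix κ κ ℝ) (u v w : κ → ℝ) : bl M (u + v) w = bl M u w + bl M v w := by
  unfold bl
  rw [add_dotProduct]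

omit [DecidableEq κ] in
theorem bl_add_right (M : Matrix κ κ ℝ) (u v w : κ → ℝ) : bl M u (v + w) = bl M u v + bl M u w := by
  unfold bl
  rw [mulVec_add, dotProduct_add]

omit [DecidableEq κ] in
theorem bl_smul_left (M : Matrix κ κ ℝ) (c : ℝ) (u v : κ → ℝ) : bl M (c • u) v = c * bl M u v := by
  unfold bl
  rw [smul_dotProduct, smul_eq_mul]

omit [DecidableEq κ] in
theorem bl_smul_right (M : Matrix κ κ ℝ) (c : ℝ) (u v : κ → ℝ) : bl M u (c • v) = c * bl M u v := by
  unfold bl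
  rw [mulVec_smul, dotProduct_smul, smul_eq_mul]

omit [DecidableEq κ] in
theorem bl_add_mat (M M' : Matrix κ κ ℝ) (u v : κ → ℝ) : bl (M + M') u v = bl M u v + bl M' u v := by
  unfold bl
  rw [add_mulVec, dotProduct_add]

omit [DecidableEq κ] in
theorem bl_smul_mat (c : ℝ) (M : Matrix κ κ ℝ) (u v : κ → ℝ) : bl (c • M) u v = c * bl M u v := by
  unfold bl
  rw [smul_mulVec, dotProduct_smul, smul_eq_mul]

omit [DecidableEq κ] in
theorem bl_comm {M : Matrix κ κ ℝ} (hM : M.IsSymm) (u v : κ → ℝ) : bl M u v = bl M v u := by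
  unfold bl
  rw [dotProduct_mulVec, ← mulVec_transpose, hM.eq, dotProduct_comm]

omit [DecidableEq κ] in
theorem bl_comb {M : Matrix κ κ ℝ} (hM : M.IsSymm) (s t : ℝ) (u v : κ → ℝ) :
    bl M (s • u + t • v) (s • u + t • v) =
      s ^ 2 * bl M u u + 2 * s * t * bl M u v + t ^ 2 * bl M v v := by
  rw [bl_add_left, bl_add_right, bl_add_right, bl_smul_left, bl_smul_left, bl_smul_left,
    bl_smul_left, bl_smul_right, bl_smul_right, bl_smul_right, bl_smul_right, bl_comm hM v u]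
  ring

/-- The form is negative definite on a plane. -/
def Idx2 (M : Matrix κ κ ℝ) : Prop :=
  ∃ u v : κ → ℝ, bl M u u < 0 ∧ bl M u v ^ 2 < bl M u u * bl M v v

/-- The form is nonnegative on a hyperplane. -/
def Idx1 (M : Matrix κ κ ℝ) : Prop := ∃ l : κ → ℝ, ∀ z, l ⬝ᵥ z = 0 → 0 ≤ bl M z z

omit [DecidableEq κ] in
theorem neg_of_det {M : Matrix κ κ ℝ} (hM : M.IsSymm) {u v : κ → ℝ} (h1 : bl M u u < 0)
    (h2 : bl M u v ^ 2 < bl M u u * bl M v v) {s t : ℝ} (hst : s ≠ 0 ∨ t ≠ 0) :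
    bl M (s • u + t • v) (s • u + t • v) < 0 := by
  rw [bl_comb hM]
  set a := bl M u u
  set b := bl M u v
  set c := bl M v v
  have h3 : 0 < a * (s ^ 2 * a + 2 * s * t * b + t ^ 2 * c) := by
    have e : a * (s ^ 2 * a + 2 * s * t * b + t ^ 2 * c) =
        (s * a + t * b) ^ 2 + t ^ 2 * (a * c - b ^ 2) := by ring
    rw [e]
    by_cases ht : t = 0
    · have hs : s ≠ 0 := hst.resolve_right (not_not.2 ht)
      rw [ht]
      have : 0 < (s * a) ^ 2 := by
        have : s * a ≠ 0 := mul_ne_zero hs h1.ne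
        positivity
      nlinarith
    · have ht2 : 0 < t ^ 2 := by positivity
      have := mul_pos ht2 (sub_pos.2 h2)
      nlinarith [sq_nonneg (s * a + t * b)]
  exact neg_of_mul_pos_right h3 h1.le

omit [DecidableEq κ] in
/-- A plane meets a hyperplane. -/
theorem exists_comb (l u v : κ → ℝ) : ∃ s t : ℝ, (s ≠ 0 ∨ t ≠ 0) ∧ l ⬝ᵥ (s • u + t • v) = 0 := by
  by_cases h : l ⬝ᵥ u = 0
  · refine ⟨1, 0, Or.inl one_ne_zero, ?_⟩
    rw [dotProduct_add, dotProduct_smul, dotProduct_smul, h]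
    simp
  · refine ⟨l ⬝ᵥ v, -(l ⬝ᵥ u), Or.inr (neg_ne_zero.2 h), ?_⟩
    rw [dotProduct_add, dotProduct_smul, dotProduct_smul]
    simp only [smul_eq_mul]
    ring

omit [DecidableEq κ] in
theorem not_both {M : Matrix κ κ ℝ} (hM : M.IsSymm) (h1 : Idx1 M) (h2 : Idx2 M) : False := by
  obtain ⟨l, hl⟩ := h1
  obtain ⟨u, v, hu, huv⟩ := h2
  obtain ⟨s, t, hst, hz⟩ := exists_comb l u v
  exact absurd (hl _ hz) (not_le.2 (neg_of_det hM hu huv hst))

/-- The spectral decomposition. -/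
theorem spectral {M : Matrix κ κ ℝ} (hM : M.IsHermitian) (z : κ → ℝ) :
    bl M z z = ∑ j, hM.eigenvalues j * (((hM.eigenvectorBasis j).ofLp) ⬝ᵥ z) ^ 2 := by
  set e := hM.eigenvectorBasis with he
  have hin : ∀ x y : κ → ℝ, inner ℝ (WithLp.toLp 2 x : EuclideanSpace ℝ κ) (WithLp.toLp 2 y) =
      x ⬝ᵥ y := by
    intro x y
    rw [EuclideanSpace.inner_toLp_toLp]
    simp [dotProduct_comm]
  have hej : ∀ j (x : κ → ℝ), inner ℝ (e j) (WithLp.toLp 2 x) = (e j).ofLp ⬝ᵥ x := by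
    intro j x
    exact hin (e j).ofLp x
  unfold bl
  rw [← hin z (M *ᵥ z), ← e.sum_inner_mul_inner (WithLp.toLp 2 z) (WithLp.toLp 2 (M *ᵥ z))]
  refine Finset.sum_congr rfl fun j _ => ?_
  rw [real_inner_comm, hej, hej, dotProduct_mulVec, ← mulVec_transpose]
  have hT : Mᵀ = M := by
    have := hM.eq
    rwa [Matrix.conjTranspose_eq_transpose_of_trivial] at this
  rw [hT, hM.mulVec_eigenvectorBasis j, smul_dotProduct, smul_eq_mul]
  ring

theorem idx1_of_card {M : Matrix κ κ ℝ} (hM : M.IsHermitian)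
    (hc : (Finset.univ.filter fun j => hM.eigenvalues j < 0).card ≤ 1) :
    ∃ (e : κ → ℝ) (μ : ℝ), M *ᵥ e = μ • e ∧ ∀ z, e ⬝ᵥ z = 0 → 0 ≤ bl M z z := by
  by_cases hex : ∃ j₀, hM.eigenvalues j₀ < 0
  · obtain ⟨j₀, hj₀⟩ := hex
    have huniq : ∀ j, hM.eigenvalues j < 0 → j = j₀ := by
      intro j hj
      exact Finset.card_le_one.1 hc j (by simp [hj]) j₀ (by simp [hj₀])
    refine ⟨(hM.eigenvectorBasis j₀).ofLp, hM.eigenvalues j₀, hM.mulVec_eigenvectorBasis j₀,
      fun z hz => ?_⟩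
    rw [spectral hM]
    refine Finset.sum_nonneg fun j _ => ?_
    by_cases hj : hM.eigenvalues j < 0
    · rw [huniq j hj, hz]
      norm_num
    · exact mul_nonneg (not_lt.1 hj) (sq_nonneg _)
  · push Not at hex
    refine ⟨0, 0, by simp, fun z _ => ?_⟩
    rw [spectral hM]
    exact Finset.sum_nonneg fun j _ => mul_nonneg (hex j) (sq_nonneg _)

theorem card_of_not_idx2 {M : Matrix κ κ ℝ} (hM : M.IsHermitian) (h : ¬ Idx2 M) :
    (Finset.univ.filter fun j => hM.eigenvalues j < 0).card ≤ 1 := by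
  by_contra hcon
  push Not at hcon
  obtain ⟨j, hj, k, hk, hjk⟩ := Finset.one_lt_card.1 hcon
  simp only [Finset.mem_filter, Finset.mem_univ, true_and] at hj hk
  apply h
  have hon := hM.eigenvectorBasis.orthonormal
  have hin : ∀ a b, inner ℝ (hM.eigenvectorBasis a) (hM.eigenvectorBasis b) =
      (hM.eigenvectorBasis a).ofLp ⬝ᵥ (hM.eigenvectorBasis b).ofLp := by
    intro a b
    have := EuclideanSpace.inner_toLp_toLp (𝕜 := ℝ) (hM.eigenvectorBasis a).ofLp
      (hM.eigenvectorBasis b).ofLp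
    rw [show inner ℝ (hM.eigenvectorBasis a) (hM.eigenvectorBasis b) =
      inner ℝ (WithLp.toLp 2 (hM.eigenvectorBasis a).ofLp : EuclideanSpace ℝ κ)
        (WithLp.toLp 2 (hM.eigenvectorBasis b).ofLp) from rfl, this]
    simp [dotProduct_comm]
  have hval : ∀ a b, bl M (hM.eigenvectorBasis a).ofLp (hM.eigenvectorBasis b).ofLp =
      hM.eigenvalues b * inner ℝ (hM.eigenvectorBasis a) (hM.eigenvectorBasis b) := by
    intro a b
    unfold bl
    rw [hM.mulVec_eigenvectorBasis b, dotProduct_smul, smul_eq_mul, ← hin]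
  have hself : ∀ a, inner ℝ (hM.eigenvectorBasis a) (hM.eigenvectorBasis a) = (1 : ℝ) := by
    intro a
    rw [real_inner_self_eq_norm_sq, hon.1 a, one_pow]
  refine ⟨(hM.eigenvectorBasis j).ofLp, (hM.eigenvectorBasis k).ofLp, ?_, ?_⟩
  · rw [hval, hself, mul_one]
    exact hj
  · rw [hval, hval, hval, hself, hself, hon.2 hjk, mul_zero, mul_one, mul_one]
    have := mul_pos_of_neg_of_neg hj hk
    nlinarith

omit [Fintype κ] [DecidableEq κ] in
theorem isHermitian_iff {M : Matrix κ κ ℝ} : M.IsHermitian ↔ M.IsSymm := by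
  unfold Matrix.IsHermitian Matrix.IsSymm
  rw [Matrix.conjTranspose_eq_transpose_of_trivial]

theorem atMostOne_iff {M : Matrix κ κ ℝ} : AG.AtMostOneNegEig M ↔ M.IsSymm ∧ ¬ Idx2 M := by
  constructor
  · rintro ⟨h, hc⟩
    refine ⟨isHermitian_iff.1 h, fun h2 => ?_⟩
    obtain ⟨e, -, -, he⟩ := idx1_of_card h hc
    exact not_both (isHermitian_iff.1 h) ⟨e, he⟩ h2
  · rintro ⟨h, h2⟩
    exact ⟨isHermitian_iff.2 h, card_of_not_idx2 _ h2⟩

theorem spectral_vec {M : Matrix κ κ ℝ} (hM : M.IsSymm) (h : ¬ Idx2 M) :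
    ∃ (e : κ → ℝ) (μ : ℝ), M *ᵥ e = μ • e ∧ ∀ z, e ⬝ᵥ z = 0 → 0 ≤ bl M z z :=
  idx1_of_card (isHermitian_iff.2 hM) (card_of_not_idx2 _ h)

theorem idx1_of_not {M : Matrix κ κ ℝ} (hM : M.IsSymm) (h : ¬ Idx2 M) : Idx1 M := by
  obtain ⟨e, -, -, he⟩ := spectral_vec hM h
  exact ⟨e, he⟩

omit [DecidableEq κ] in
/-- A vector orthogonal to the special eigenvector and isotropic lies in the kernel. -/
theorem kernel_of_isotropic {M : Matrix κ κ ℝ} (hM : M.IsSymm) {e : κ → ℝ} {μ : ℝ}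
    (he : M *ᵥ e = μ • e) (hpos : ∀ z, e ⬝ᵥ z = 0 → 0 ≤ bl M z z) {x : κ → ℝ} (hx : e ⬝ᵥ x = 0)
    (h0 : bl M x x = 0) : M *ᵥ x = 0 := by
  set w := M *ᵥ x with hw
  have hew : e ⬝ᵥ w = 0 := by
    rw [hw, dotProduct_mulVec, ← mulVec_transpose, hM.eq, he, smul_dotProduct, hx, smul_zero]
  -- the mixed term vanishes
  have hmix : bl M x w = 0 := by
    by_contra hne
    have hquad : ∀ s : ℝ, 0 ≤ 2 * s * bl M x w + s ^ 2 * bl M w w := by
      intro s
      have h1 := hpos ((1 : ℝ) • x + s • w) (by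
        rw [dotProduct_add, dotProduct_smul, dotProduct_smul, hx, hew]
        simp)
      rw [bl_comb hM, h0] at h1
      linarith
    have h2 := hpos w hew
    -- choose `s` of the opposite sign
    have h3 := hquad (-(bl M x w) / (bl M w w + 1))
    have h4 : 0 < bl M w w + 1 := by linarith
    have h5 : 2 * (-(bl M x w) / (bl M w w + 1)) * bl M x w +
        (-(bl M x w) / (bl M w w + 1)) ^ 2 * bl M w w =
        -(bl M x w ^ 2 * (bl M w w + 2) / (bl M w w + 1) ^ 2) := by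
      field_simp
      ring
    rw [h5] at h3
    have h6 : 0 < bl M x w ^ 2 * (bl M w w + 2) / (bl M w w + 1) ^ 2 := by positivity
    linarith
  have h7 : w ⬝ᵥ w = 0 := by
    have : bl M x w = w ⬝ᵥ w := by
      rw [bl_comm hM]
      rfl
    rw [← this, hmix]
  exact dotProduct_self_eq_zero.1 h7

/-- The first parameter at which the form gets a second negative square. -/
theorem crossing {A B : Matrix κ κ ℝ} (hA : A.IsSymm) (hB : B.IsSymm) {t₀ t₁ : ℝ} (h01 : t₀ ≤ t₁)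
    (h0 : ¬ Idx2 (A + t₀ • B)) (h1 : Idx2 (A + t₁ • B)) :
    ∃ t v, t₀ ≤ t ∧ t < t₁ ∧ v ≠ 0 ∧ (A + t • B) *ᵥ v = 0 ∧ bl B v v ≤ 0 := by
  have hsym : ∀ t : ℝ, (A + t • B).IsSymm := fun t => hA.add (hB.smul t)
  -- openness
  have hopen : ∀ t : ℝ, Idx2 (A + t • B) → ∀ᶠ s in 𝓝 t, Idx2 (A + s • B) := by
    rintro t ⟨u, v, h2, h3⟩
    have c1 : Continuous fun s : ℝ => bl (A + s • B) u u := by
      simp only [bl_add_mat, bl_smul_mat]
      fun_prop
    have c2 : Continuous fun s : ℝ => bl (A + s • B) u v := by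
      simp only [bl_add_mat, bl_smul_mat]
      fun_prop
    have c3 : Continuous fun s : ℝ => bl (A + s • B) v v := by
      simp only [bl_add_mat, bl_smul_mat]
      fun_prop
    have e1 : ∀ᶠ s in 𝓝 t, bl (A + s • B) u u < 0 :=
      (isOpen_lt c1 (continuous_const : Continuous fun _ : ℝ => (0 : ℝ))).mem_nhds h2
    have e2 : ∀ᶠ s in 𝓝 t, bl (A + s • B) u v ^ 2 < bl (A + s • B) u u * bl (A + s • B) v v :=
      (isOpen_lt (c2.pow 2) (c1.mul c3)).mem_nhds h3
    filter_upwards [e1, e2] with s hs1 hs2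
    exact ⟨u, v, hs1, hs2⟩
  set T : Set ℝ := {t | t₀ ≤ t ∧ t ≤ t₁ ∧ Idx2 (A + t • B)} with hT
  have hTne : T.Nonempty := ⟨t₁, h01, le_rfl, h1⟩
  have hTbd : BddBelow T := ⟨t₀, fun t ht => ht.1⟩
  set a := sInf T with ha
  have hat0 : t₀ ≤ a := le_csInf hTne fun t ht => ht.1
  have hat1 : a ≤ t₁ := csInf_le hTbd ⟨h01, le_rfl, h1⟩
  have hna : ¬ Idx2 (A + a • B) := by
    intro hI
    have hne : t₀ ≠ a := by
      intro h
      rw [← h] at hI
      exact h0 hI
    have hlt : t₀ < a := lt_of_le_of_ne hat0 hne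
    obtain ⟨δ, hδ, hball⟩ := Metric.eventually_nhds_iff.1 (hopen a hI)
    set s := max t₀ (a - δ / 2) with hs
    have hsa : s < a := max_lt hlt (by linarith)
    have hsd : dist s a < δ := by
      rw [Real.dist_eq, abs_lt]
      have := le_max_right t₀ (a - δ / 2)
      constructor <;> linarith
    have hsT : s ∈ T := ⟨le_max_left _ _, by linarith, hball hsd⟩
    have := csInf_le hTbd hsT
    linarith
  have ha1 : a < t₁ := lt_of_le_of_ne hat1 fun h => by
    rw [h] at hna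
    exact hna h1
  obtain ⟨e, μ, he, hpos⟩ := spectral_vec (hsym a) hna
  -- a sequence of parameters and unit vectors
  have hseq : ∀ n : ℕ, ∃ (t : ℝ) (x : κ → ℝ), a < t ∧ t < a + 1 / ((n : ℝ) + 1) ∧ ‖x‖ = 1 ∧
      e ⬝ᵥ x = 0 ∧ bl (A + t • B) x x < 0 := by
    intro n
    have hn : (0 : ℝ) < 1 / ((n : ℝ) + 1) := by positivity
    obtain ⟨t, ht, hta⟩ := exists_lt_of_csInf_lt hTne (show sInf T < a + 1 / ((n : ℝ) + 1) by
      rw [← ha]; linarith)
    have hat : a < t := lt_of_le_of_ne (csInf_le hTbd ht) fun h => by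
      rw [h] at hna
      exact hna ht.2.2
    obtain ⟨u, v, hu, huv⟩ := ht.2.2
    obtain ⟨s, r, hsr, hz⟩ := exists_comb e u v
    have hneg := neg_of_det (hsym t) hu huv hsr
    set y := s • u + r • v with hy
    have hy0 : y ≠ 0 := by
      intro h
      rw [h] at hneg
      unfold bl at hneg
      simp at hneg
    have hny : 0 < ‖y‖ := norm_pos_iff.2 hy0
    refine ⟨t, ‖y‖⁻¹ • y, hat, hta, ?_, ?_, ?_⟩
    · rw [norm_smul, norm_inv, norm_norm, inv_mul_cancel₀ hny.ne']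
    · rw [dotProduct_smul, hz, smul_zero]
    · rw [bl_smul_left, bl_smul_right]
      have : 0 < ‖y‖⁻¹ := inv_pos.2 hny
      have h3 := mul_pos this this
      nlinarith
  choose t x ht1 ht2 hx1 hx2 hx3 using hseq
  obtain ⟨v, hv, φ, hφ, hlim⟩ := (isCompact_sphere (0 : κ → ℝ) 1).tendsto_subseq
    (x := x) (fun n => by rw [mem_sphere_zero_iff_norm]; exact hx1 n)
  have hv1 : ‖v‖ = 1 := mem_sphere_zero_iff_norm.1 hv
  have htlim : Tendsto t atTop (𝓝 a) := by
    refine tendsto_of_tendsto_of_tendsto_of_le_of_le tendsto_const_nhds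
      (h := fun n : ℕ => a + 1 / ((n : ℝ) + 1)) ?_ (fun n => (ht1 n).le) (fun n => (ht2 n).le)
    have := (tendsto_const_nhds (x := a)).add (tendsto_one_div_add_atTop_nhds_zero_nat (𝕜 := ℝ))
    rwa [add_zero] at this
  have hcb : ∀ M : Matrix κ κ ℝ, Continuous fun x : κ → ℝ => bl M x x := by
    intro M
    unfold bl
    have h1 : Continuous fun x : κ → ℝ => M *ᵥ x := (Matrix.mulVecLin M).continuous_of_finiteDimensional
    exact Continuous.dotProduct continuous_id h1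
  have hev : e ⬝ᵥ v = 0 := by
    have h1 : Continuous fun x : κ → ℝ => e ⬝ᵥ x := Continuous.dotProduct continuous_const continuous_id
    have h2 : Tendsto (fun n => e ⬝ᵥ x (φ n)) atTop (𝓝 (e ⬝ᵥ v)) :=
      (h1.tendsto v).comp hlim
    have h3 : (fun n => e ⬝ᵥ x (φ n)) = fun _ => (0 : ℝ) := by
      funext n
      exact hx2 _
    rw [h3] at h2
    exact (tendsto_nhds_unique h2 tendsto_const_nhds)
  have hM0 : ∀ n, 0 ≤ bl (A + a • B) (x n) (x n) := fun n => hpos _ (hx2 n)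
  have hsplit : ∀ n, bl (A + t n • B) (x n) (x n) =
      bl (A + a • B) (x n) (x n) + (t n - a) * bl B (x n) (x n) := by
    intro n
    simp only [bl_add_mat, bl_smul_mat]
    ring
  have hBneg : ∀ n, bl B (x n) (x n) < 0 := by
    intro n
    have h2 := hx3 n
    rw [hsplit] at h2
    have h3 := hM0 n
    have h4 := sub_pos.2 (ht1 n)
    by_contra hcon
    push Not at hcon
    have := mul_nonneg h4.le hcon
    linarith
  have limB : Tendsto (fun n => bl B (x (φ n)) (x (φ n))) atTop (𝓝 (bl B v v)) :=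
    ((hcb B).tendsto v).comp hlim
  have limM : Tendsto (fun n => bl (A + a • B) (x (φ n)) (x (φ n))) atTop
      (𝓝 (bl (A + a • B) v v)) := ((hcb _).tendsto v).comp hlim
  have hBv : bl B v v ≤ 0 := le_of_tendsto limB (Eventually.of_forall fun n => (hBneg _).le)
  have hMv : bl (A + a • B) v v = 0 := by
    apply le_antisymm
    · have h2 : Tendsto (fun n => -((t (φ n) - a) * bl B (x (φ n)) (x (φ n)))) atTop
          (𝓝 (-((a - a) * bl B v v))) :=
        ((((htlim.comp hφ.tendsto_atTop).sub_const a)).mul limB).neg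
      rw [sub_self, zero_mul, neg_zero] at h2
      refine le_of_tendsto_of_tendsto limM h2 (Eventually.of_forall fun n => ?_)
      have h3 := hx3 (φ n)
      rw [hsplit] at h3
      show bl (A + a • B) (x (φ n)) (x (φ n)) ≤ -((t (φ n) - a) * bl B (x (φ n)) (x (φ n)))
      linarith
    · exact hpos v hev
  refine ⟨a, v, hat0, ha1, ?_, kernel_of_isotropic (hsym a) he hpos hev hMv, hBv⟩
  intro h
  rw [h, norm_zero] at hv1
  exact zero_ne_one hv1

/-- A segment between two forms with at most one negative square cannot have the pattern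
`≤ 1, ≥ 2, ≤ 1, ≥ 2, ≤ 1` of negative squares. -/
theorem pattern {A B : Matrix κ κ ℝ} (hA : A.IsSymm) (hB : B.IsSymm) {t₁ t₂ t₃ : ℝ} (h01 : 0 ≤ t₁)
    (h12 : t₁ < t₂) (h23 : t₂ < t₃) (h31 : t₃ ≤ 1) (i0 : ¬ Idx2 A) (i1 : Idx2 (A + t₁ • B))
    (i2 : ¬ Idx2 (A + t₂ • B)) (i3 : Idx2 (A + t₃ • B)) (i4 : ¬ Idx2 (A + B)) : False := by
  -- a small perturbation
  have hmono : ∀ (M : Matrix κ κ ℝ), M.IsSymm → ∀ ε : ℝ, 0 ≤ ε → ¬ Idx2 M →
      ¬ Idx2 (M + ε • (1 : Matrix κ κ ℝ)) := by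
    intro M hM ε hε hM2 hI
    obtain ⟨l, hl⟩ := idx1_of_not hM hM2
    refine not_both (hM.add (Matrix.isSymm_one.smul ε)) ⟨l, fun z hz => ?_⟩ hI
    rw [bl_add_mat, bl_smul_mat]
    have h1 := hl z hz
    have h2 : 0 ≤ bl (1 : Matrix κ κ ℝ) z z := by
      unfold bl
      rw [one_mulVec, dotProduct]
      exact Finset.sum_nonneg fun i _ => mul_self_nonneg _
    have := mul_nonneg hε h2
    linarith
  have hopen : ∀ M : Matrix κ κ ℝ, Idx2 M → ∀ᶠ ε in 𝓝 (0 : ℝ), Idx2 (M + ε • (1 : Matrix κ κ ℝ)) := by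
    rintro M ⟨u, v, h2, h3⟩
    have c1 : Continuous fun s : ℝ => bl (M + s • (1 : Matrix κ κ ℝ)) u u := by
      simp only [bl_add_mat, bl_smul_mat]
      fun_prop
    have c2 : Continuous fun s : ℝ => bl (M + s • (1 : Matrix κ κ ℝ)) u v := by
      simp only [bl_add_mat, bl_smul_mat]
      fun_prop
    have c3 : Continuous fun s : ℝ => bl (M + s • (1 : Matrix κ κ ℝ)) v v := by
      simp only [bl_add_mat, bl_smul_mat]
      fun_prop
    have z0 : M + (0 : ℝ) • (1 : Matrix κ κ ℝ) = M := by rw [zero_smul, add_zero]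
    have e1 : ∀ᶠ s in 𝓝 (0 : ℝ), bl (M + s • (1 : Matrix κ κ ℝ)) u u < 0 :=
      (isOpen_lt c1 (continuous_const : Continuous fun _ : ℝ => (0 : ℝ))).mem_nhds (by
        show bl (M + (0 : ℝ) • (1 : Matrix κ κ ℝ)) u u < 0
        rw [z0]; exact h2)
    have e2 : ∀ᶠ s in 𝓝 (0 : ℝ), bl (M + s • (1 : Matrix κ κ ℝ)) u v ^ 2 <
        bl (M + s • (1 : Matrix κ κ ℝ)) u u * bl (M + s • (1 : Matrix κ κ ℝ)) v v :=
      (isOpen_lt (c2.pow 2) (c1.mul c3)).mem_nhds (by
        show bl (M + (0 : ℝ) • (1 : Matrix κ κ ℝ)) u v ^ 2 <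
          bl (M + (0 : ℝ) • (1 : Matrix κ κ ℝ)) u u * bl (M + (0 : ℝ) • (1 : Matrix κ κ ℝ)) v v
        rw [z0]; exact h3)
    filter_upwards [e1, e2] with s hs1 hs2
    exact ⟨u, v, hs1, hs2⟩
  obtain ⟨ε, hε0, hε1, hε3, hεA⟩ : ∃ ε : ℝ, 0 < ε ∧ Idx2 (A + t₁ • B + ε • (1 : Matrix κ κ ℝ)) ∧
      Idx2 (A + t₃ • B + ε • (1 : Matrix κ κ ℝ)) ∧
      ∀ v : κ → ℝ, (A + ε • (1 : Matrix κ κ ℝ)) *ᵥ v = 0 → v = 0 := by
    obtain ⟨δ, hδ, hball⟩ := Metric.eventually_nhds_iff.1 ((hopen _ i1).and (hopen _ i3))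
    have hfin : (spectrum ℝ A).Finite := Matrix.finite_real_spectrum
    have hfin2 : ((fun x : ℝ => -x) '' spectrum ℝ A).Finite := hfin.image _
    obtain ⟨ε, hε, hεn⟩ : ∃ ε ∈ Set.Ioo (0 : ℝ) δ, ε ∉ (fun x : ℝ => -x) '' spectrum ℝ A :=
      ((Set.Ioo_infinite hδ).sdiff hfin2).nonempty
    have hb := hball (y := ε) (by rw [Real.dist_eq, sub_zero, abs_of_pos hε.1]; exact hε.2)
    refine ⟨ε, hε.1, hb.1, hb.2, fun v hv => ?_⟩
    by_contra hv0
    apply hεn
    refine ⟨-ε, ?_, neg_neg ε⟩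
    have h1 : A *ᵥ v = (-ε) • v := by
      rw [add_mulVec, smul_mulVec, one_mulVec] at hv
      rw [neg_smul]
      exact eq_neg_of_add_eq_zero_left hv
    have h2 : Module.End.HasEigenvalue (Matrix.toLin' A) (-ε) := by
      refine Module.End.hasEigenvalue_of_hasEigenvector (x := v) ⟨?_, hv0⟩
      rw [Module.End.mem_eigenspace_iff]
      exact h1
    have h3 := h2.mem_spectrum
    rwa [Matrix.spectrum_toLin'] at h3
  obtain ⟨A', hA'⟩ : ∃ A', A' = A + ε • (1 : Matrix κ κ ℝ) := ⟨_, rfl⟩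
  rw [← hA'] at hεA
  have hA's : A'.IsSymm := by
    rw [hA']
    exact hA.add (Matrix.isSymm_one.smul ε)
  have hre : ∀ t : ℝ, A' + t • B = A + t • B + ε • (1 : Matrix κ κ ℝ) := by
    intro t
    rw [hA']
    abel
  obtain ⟨a, v, ha0, ha1, hv0, hv1, hv2⟩ := crossing hA's hB h01
    (by rw [hre, zero_smul, add_zero]; exact hmono A hA ε hε0.le i0) (by rw [hre]; exact hε1)
  obtain ⟨c, w, hc0, hc1, hw0, hw1, hw2⟩ := crossing hA's hB h23.le
    (by rw [hre]; exact hmono _ (hA.add (hB.smul _)) ε hε0.le i2) (by rw [hre]; exact hε3)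
  have hac : a < c := by linarith
  -- orthogonality
  have o1 : bl A' w v + a * bl B w v = 0 := by
    have : bl (A' + a • B) w v = 0 := by
      unfold bl
      rw [hv1, dotProduct_zero]
    rwa [bl_add_mat, bl_smul_mat] at this
  have o2 : bl A' w v + c * bl B w v = 0 := by
    have : bl (A' + c • B) v w = 0 := by
      unfold bl
      rw [hw1, dotProduct_zero]
    rwa [bl_comm (hA's.add (hB.smul c)), bl_add_mat, bl_smul_mat] at this
  have o3 : bl B w v = 0 := by
    have : (c - a) * bl B w v = 0 := by linarith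
    exact (mul_eq_zero.1 this).resolve_left (by linarith)
  have o4 : bl A' w v = 0 := by
    rw [o3] at o1
    linarith
  have s1 : bl A' v v + a * bl B v v = 0 := by
    have : bl (A' + a • B) v v = 0 := by
      unfold bl
      rw [hv1, dotProduct_zero]
    rwa [bl_add_mat, bl_smul_mat] at this
  have s2 : bl A' w w + c * bl B w w = 0 := by
    have : bl (A' + c • B) w w = 0 := by
      unfold bl
      rw [hw1, dotProduct_zero]
    rwa [bl_add_mat, bl_smul_mat] at this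
  -- the form at the end point
  obtain ⟨l, hl⟩ := idx1_of_not (hA.add hB) i4
  obtain ⟨s, r, hsr, hz⟩ := exists_comb l v w
  have h1 := hl _ hz
  have h2 : bl (A' + B) (s • v + r • w) (s • v + r • w) ≤ 0 := by
    rw [bl_comb (hA's.add hB), bl_add_mat, bl_add_mat, bl_add_mat, bl_comm hA's v w,
      bl_comm hB v w, o3, o4]
    have e1 : bl A' v v + bl B v v = (1 - a) * bl B v v := by linarith
    have e2 : bl A' w w + bl B w w = (1 - c) * bl B w w := by linarith
    rw [e1, e2]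
    have g1 : (1 - a) * bl B v v ≤ 0 := mul_nonpos_of_nonneg_of_nonpos (by linarith) hv2
    have g2 : (1 - c) * bl B w w ≤ 0 := mul_nonpos_of_nonneg_of_nonpos (by linarith) hw2
    have g3 := mul_nonpos_of_nonneg_of_nonpos (sq_nonneg s) g1
    have g4 := mul_nonpos_of_nonneg_of_nonpos (sq_nonneg r) g2
    linarith
  have h3 : bl (A' + B) (s • v + r • w) (s • v + r • w) =
      bl (A + B) (s • v + r • w) (s • v + r • w) + ε * ((s • v + r • w) ⬝ᵥ (s • v + r • w)) := by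
    rw [hA', show A + ε • (1 : Matrix κ κ ℝ) + B = (A + B) + ε • (1 : Matrix κ κ ℝ) by abel,
      bl_add_mat, bl_smul_mat]
    unfold bl
    rw [one_mulVec]
  have h4 : 0 ≤ (s • v + r • w) ⬝ᵥ (s • v + r • w) := by
    rw [dotProduct]
    exact Finset.sum_nonneg fun i _ => mul_self_nonneg _
  have h5 : (s • v + r • w) ⬝ᵥ (s • v + r • w) = 0 := by
    have : ε * ((s • v + r • w) ⬝ᵥ (s • v + r • w)) ≤ 0 := by linarith
    have h6 : (s • v + r • w) ⬝ᵥ (s • v + r • w) ≤ 0 := by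
      by_contra hcon
      push Not at hcon
      have := mul_pos hε0 hcon
      linarith
    linarith
  have h6 : s • v + r • w = 0 := dotProduct_self_eq_zero.1 h5
  -- `v` and `w` are proportional
  obtain ⟨k, hk⟩ : ∃ k : ℝ, w = k • v := by
    have hr : r ≠ 0 := by
      intro hr
      rw [hr, zero_smul, add_zero] at h6
      have hs : s ≠ 0 := hsr.resolve_right (not_not.2 hr)
      exact hv0 ((smul_eq_zero.1 h6).resolve_left hs)
    refine ⟨-(s / r), ?_⟩
    have h7 : r • w = -(s • v) := eq_neg_of_add_eq_zero_right h6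
    calc w = r⁻¹ • (r • w) := by rw [smul_smul, inv_mul_cancel₀ hr, one_smul]
      _ = r⁻¹ • -(s • v) := by rw [h7]
      _ = -(s / r) • v := by
          rw [smul_neg, smul_smul, neg_smul]
          congr 2
          field_simp
  have hk0 : k ≠ 0 := by
    rintro rfl
    rw [zero_smul] at hk
    exact hw0 hk
  have hv3 : (A' + c • B) *ᵥ v = 0 := by
    rw [hk, mulVec_smul] at hw1
    exact (smul_eq_zero.1 hw1).resolve_left hk0
  have hBv : B *ᵥ v = 0 := by
    have h7 : (A' + c • B) *ᵥ v - (A' + a • B) *ᵥ v = 0 := by rw [hv3, hv1, sub_zero]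
    rw [add_mulVec, add_mulVec, smul_mulVec, smul_mulVec, add_sub_add_left_eq_sub, ← sub_smul] at h7
    exact (smul_eq_zero.1 h7).resolve_left (by linarith)
  have hAv : A' *ᵥ v = 0 := by
    rw [add_mulVec, smul_mulVec, hBv, smul_zero, add_zero] at hv1
    exact hv1
  exact hv0 (hεA v hAv)

end Pool.Agent.R228.PD
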