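import Pool.Agent.R228.PD.Core

/-!
# If all three faces carry good aggregations then some vertex is good
-/

set_option autoImplicit false

namespace Pool.Agent.R228.PD

open Matrix AG

variable {ι : Type} [Fintype ι] [DecidableEq ι]

/-- Three hyperplanes meet in dimension at least four. -/
theorem exists_common {κ : Type} [Fintype κ] (hκ : 4 ≤ Fintype.card κ) (l₁ l₂ l₃ : κ → ℝ) :
    ∃ z : κ → ℝ, z ≠ 0 ∧ l₁ ⬝ᵥ z = 0 ∧ l₂ ⬝ᵥ z = 0 ∧ l₃ ⬝ᵥ z = 0 := by
  let f : (κ → ℝ) →ₗ[ℝ] (Fin 3 → ℝ) := Matrix.mulVecLin (Matrix.of ![l₁, l₂, l₃])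
  have hk : LinearMap.ker f ≠ ⊥ := by
    apply LinearMap.ker_ne_bot_of_finrank_lt
    rw [Module.finrank_fintype_fun_eq_card, Module.finrank_fintype_fun_eq_card, Fintype.card_fin]
    omega
  obtain ⟨z, hz, hz0⟩ := Submodule.exists_mem_ne_zero_of_ne_bot hk
  have h : Matrix.of ![l₁, l₂, l₃] *ᵥ z = 0 := hz
  refine ⟨z, hz0, ?_, ?_, ?_⟩
  · exact congrFun h 0
  · exact congrFun h 1
  · exact congrFun h 2

/-- The negative of the positive definite direction is not in the cone of three good vectors. -/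
theorem not_in_cone (q : QuadSystem ι 3) (hι : 3 ≤ Fintype.card ι) {p a b c : Fin 3 → ℝ}
    (hQ : ∀ z, z ≠ 0 → 0 < bl (q.Qagg (-p)) z z) (ha : ¬ Idx2 (q.Qagg a))
    (hb : ¬ Idx2 (q.Qagg b)) (hc : ¬ Idx2 (q.Qagg c)) {α β γ : ℝ} (hα : 0 ≤ α) (hβ : 0 ≤ β)
    (hγ : 0 ≤ γ) (h : p = α • a + β • b + γ • c) : False := by
  obtain ⟨l₁, h₁⟩ := idx1_of_not (Qagg_symm q a) ha
  obtain ⟨l₂, h₂⟩ := idx1_of_not (Qagg_symm q b) hb
  obtain ⟨l₃, h₃⟩ := idx1_of_not (Qagg_symm q c) hc
  obtain ⟨z, hz0, hz1, hz2, hz3⟩ := exists_common (κ := ι ⊕ Unit) (by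
    rw [Fintype.card_sum, Fintype.card_unit]
    omega) l₁ l₂ l₃
  have h4 := hQ z hz0
  have h5 : bl (q.Qagg (-p)) z z = -(α * bl (q.Qagg a) z z + β * bl (q.Qagg b) z z +
      γ * bl (q.Qagg c) z z) := by
    rw [← neg_one_smul ℝ p, Qagg_smul, bl_smul_mat, h, Qagg_add, Qagg_add, Qagg_smul, Qagg_smul,
      Qagg_smul, bl_add_mat, bl_add_mat, bl_smul_mat, bl_smul_mat, bl_smul_mat]
    ring
  have g1 := mul_nonneg hα (h₁ z hz1)
  have g2 := mul_nonneg hβ (h₂ z hz2)
  have g3 := mul_nonneg hγ (h₃ z hz3)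
  linarith

/-- If the three open faces contain good vectors, then a vertex is good. -/
theorem vertex_good (q : QuadSystem ι 3) (hι : 3 ≤ Fintype.card ι) {i j k : Fin 3}
    (T : Tri i j k) {p a b c : Fin 3 → ℝ}
    (hp : ∀ l, 0 < p l) (hQ : ∀ z, z ≠ 0 → 0 < bl (q.Qagg (-p)) z z)
    (ha : q.Good a) (hb : q.Good b) (hc : q.Good c)
    (haj : a j = 0) (hai : 0 < a i) (hak : 0 < a k)
    (hbi : b i = 0) (hbj : 0 < b j) (hbk : 0 < b k)
    (hck : c k = 0) (hci : 0 < c i) (hcj : 0 < c j) : ∃ l, q.Good (Pi.single l 1) := by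
  have hpi := hp i
  have hpj := hp j
  have hpk := hp k
  have hQ' : ∀ z, 0 ≤ bl (q.Qagg (-p)) z z := by
    intro z
    by_cases h : z = 0
    · rw [h]
      unfold bl
      simp
    · exact (hQ z h).le
  -- the coefficients
  set E := a k * c i / a i + b k * c j / b j with hE
  have hE0 : 0 < E := by positivity
  set γ := (a k * p i / a i + b k * p j / b j - p k) / E with hγ
  set α := (p i - γ * c i) / a i with hα
  set β := (p j - γ * c j) / b j with hβ
  have e1 : α * a i + γ * c i = p i := by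
    rw [hα]
    field_simp
    ring
  have e2 : β * b j + γ * c j = p j := by
    rw [hβ]
    field_simp
    ring
  have e3 : α * a k + β * b k = p k := by
    have h1 : γ * E = a k * p i / a i + b k * p j / b j - p k := by
      rw [hγ]
      field_simp
    rw [hE] at h1
    have h2 : α * a k + β * b k = a k * p i / a i + b k * p j / b j -
        γ * (a k * c i / a i + b k * c j / b j) := by
      rw [hα, hβ]
      field_simp
      ring
    rw [h2, h1]
    ring
  have hsum : p = α • a + β • b + γ • c := by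
    refine T.ext ?_ ?_ ?_
    · simp only [Pi.add_apply, Pi.smul_apply, smul_eq_mul, hbi]
      linarith
    · simp only [Pi.add_apply, Pi.smul_apply, smul_eq_mul, haj]
      linarith
    · simp only [Pi.add_apply, Pi.smul_apply, smul_eq_mul, hck]
      linarith
  have ga := ((good_iff q a).1 ha).2.2.1
  have gb := ((good_iff q b).1 hb).2.2.1
  have gc := ((good_iff q c).1 hc).2.2.1
  rcases lt_or_ge γ 0 with h | h
  · -- `c` on the left
    have hα0 : 0 < α := by
      have h1 := mul_neg_of_neg_of_pos h hci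
      have h2 : 0 < α * a i := by linarith
      exact (mul_pos_iff_of_pos_right hai).1 h2
    have hβ0 : 0 < β := by
      have h1 := mul_neg_of_neg_of_pos h hcj
      have h2 : 0 < β * b j := by linarith
      exact (mul_pos_iff_of_pos_right hbj).1 h2
    refine core q (i := k) (j := j) (k := i) ⟨T.jk.symm, T.ik.symm, T.ij.symm⟩ hp hQ' ha hc hb
      haj hak hai hck hcj hci hbi hbk hbj hα0 (β := -γ) (by linarith) hβ0 ?_
    rw [hsum]
    module
  rcases lt_or_ge β 0 with h' | h'
  · have hγ0 : 0 < γ := by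
      have h1 := mul_neg_of_neg_of_pos h' hbj
      have h2 : 0 < γ * c j := by linarith
      exact (mul_pos_iff_of_pos_right hcj).1 h2
    have hα0 : 0 < α := by
      have h1 := mul_neg_of_neg_of_pos h' hbk
      have h2 : 0 < α * a k := by linarith
      exact (mul_pos_iff_of_pos_right hak).1 h2
    refine core q (i := i) (j := j) (k := k) T hp hQ' ha hb hc
      haj hai hak hbi hbj hbk hck hci hcj hα0 (β := -β) (by linarith) hγ0 ?_
    rw [hsum]
    module
  rcases lt_or_ge α 0 with h'' | h''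
  · have hγ0 : 0 < γ := by
      have h1 := mul_neg_of_neg_of_pos h'' hai
      have h2 : 0 < γ * c i := by linarith
      exact (mul_pos_iff_of_pos_right hci).1 h2
    have hβ0 : 0 < β := by
      have h1 := mul_neg_of_neg_of_pos h'' hak
      have h2 : 0 < β * b k := by linarith
      exact (mul_pos_iff_of_pos_right hbk).1 h2
    refine core q (i := j) (j := i) (k := k) ⟨T.ij.symm, T.jk, T.ik⟩ hp hQ' hb ha hc
      hbi hbj hbk haj hai hak hck hcj hci hβ0 (β := -α) (by linarith) hγ0 ?_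
    rw [hsum]
    module
  exact (not_in_cone q hι hQ ga gb gc h'' h' h hsum).elim

end Pool.Agent.R228.PD
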